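import Mathlib

set_option autoImplicit false

open Set Topology

namespace Pool.Agent.H162R3.NW

/-- closing off a countable set under countably-valued finitary operations -/
theorem close {I : Type} (Φ : Finset I → Set I) (hΦ : ∀ E, (Φ E).Countable) (M₀ : Set I)
    (hM₀ : M₀.Countable) :
    ∃ M : Set I, M₀ ⊆ M ∧ M.Countable ∧ ∀ E : Finset I, (E : Set I) ⊆ M → Φ E ⊆ M := by
  classical
  let st : Set I → Set I := fun N => N ∪ ⋃ E ∈ {E : Finset I | (E : Set I) ⊆ N}, Φ E
  have hst : ∀ N : Set I, N.Countable → (st N).Countable := by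
    intro N hN
    refine hN.union (Set.Countable.biUnion ?_ fun E _ => hΦ E)
    have h1 := Set.countable_ofPred_finite_subset hN
    refine Set.MapsTo.countable_of_injOn (f := fun E : Finset I => (E : Set I)) ?_ ?_ h1
    · intro E hE
      exact ⟨E.finite_toSet, hE⟩
    · intro E _ E' _ h
      exact Finset.coe_injective h
  let N : ℕ → Set I := fun n => Nat.rec M₀ (fun _ A => st A) n
  have hN0 : N 0 = M₀ := rfl
  have hNs : ∀ n, N (n + 1) = st (N n) := fun n => rfl
  have hcount : ∀ n, (N n).Countable := by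
    intro n
    induction n with
    | zero => rw [hN0]; exact hM₀
    | succ n ih => rw [hNs]; exact hst _ ih
  have hmono : Monotone N := by
    apply monotone_nat_of_le_succ
    intro n
    rw [hNs]
    exact Set.subset_union_left
  refine ⟨⋃ n, N n, ?_, Set.countable_iUnion hcount, ?_⟩
  · intro x hx
    exact Set.mem_iUnion.2 ⟨0, hx⟩
  · intro E hE
    obtain ⟨n, hn⟩ : ∃ n, (E : Set I) ⊆ N n := by
      have h1 : ∀ x : E, ∃ n, (x : I) ∈ N n := fun x => Set.mem_iUnion.1 (hE x.2)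
      choose g hg using h1
      refine ⟨Finset.univ.sup g, fun x hx => ?_⟩
      exact hmono (Finset.le_sup (Finset.mem_univ (⟨x, hx⟩ : E))) (hg ⟨x, hx⟩)
    intro x hx
    refine Set.mem_iUnion.2 ⟨n + 1, ?_⟩
    rw [hNs]
    refine Or.inr ?_
    exact Set.mem_biUnion (show E ∈ {E : Finset I | (E : Set I) ⊆ N n} from hn) hx

theorem repr {Y K I : Type} [Finite K] (φ : Y → I → K) (F : Set Y) (E : Finset I) :
    ∃ R ⊆ F, R.Countable ∧ ∀ f ∈ F, ∃ f' ∈ R, ∀ x ∈ E, φ f' x = φ f x := by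
  classical
  obtain ⟨R, hRF, hR⟩ := Set.exists_subset_bijOn F (fun y : Y => (fun x : E => φ y x))
  refine ⟨R, hRF, ?_, ?_⟩
  · exact Set.MapsTo.countable_of_injOn hR.mapsTo hR.injOn (Set.to_countable _)
  · intro f hf
    obtain ⟨f', hf', h⟩ := hR.surjOn (Set.mem_image_of_mem _ hf)
    exact ⟨f', hf', fun x hx => congrFun h ⟨x, hx⟩⟩

section gen

variable {I : Type} [LinearOrder I]

/-- uncountable cofinality -/
def UC (x : I) : Prop :=
  ∀ C : Set I, C.Countable → (∀ c ∈ C, c < x) → ∃ γ < x, ∀ c ∈ C, c < γ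

/-- continuity for the topology in which neighbourhoods of points of uncountable cofinality
are left half-open intervals and all other points are isolated -/
def Co {K : Type} (f : I → K) : Prop :=
  ∀ x, UC x → ∃ γ < x, ∀ ξ, γ < ξ → ξ ≤ x → f ξ = f x

variable [WellFoundedLT I] [OrderTop I]

open Classical in
noncomputable def hat (M : Set I) (ξ : I) : I :=
  if h : (M ∩ Ici ξ).Nonempty then WellFounded.min wellFounded_lt (M ∩ Ici ξ) h else ⊤

theorem hat_spec {M : Set I} (hM : ⊤ ∈ M) (ξ : I) :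
    hat M ξ ∈ M ∧ ξ ≤ hat M ξ ∧ ∀ m ∈ M, ξ ≤ m → hat M ξ ≤ m := by
  have h : (M ∩ Ici ξ).Nonempty := ⟨⊤, hM, le_top⟩
  have h1 : hat M ξ = WellFounded.min wellFounded_lt (M ∩ Ici ξ) h := by
    unfold hat
    rw [dif_pos h]
  have h2 := WellFounded.min_mem wellFounded_lt (M ∩ Ici ξ) h
  rw [← h1] at h2
  refine ⟨h2.1, h2.2, fun m hm hξ => ?_⟩
  rw [h1]
  exact not_lt.1 (WellFounded.not_lt_min wellFounded_lt (M ∩ Ici ξ) ⟨hm, hξ⟩)

theorem hat_of_mem {M : Set I} {ξ : I} (hM : ⊤ ∈ M) (h : ξ ∈ M) : hat M ξ = ξ :=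
  le_antisymm ((hat_spec hM ξ).2.2 ξ h le_rfl) (hat_spec hM ξ).2.1

theorem hat_const {M : Set I} (hM : ⊤ ∈ M) (hMc : M.Countable) (x : I) (hx : UC x) :
    ∃ γ < x, ∀ ξ, γ < ξ → ξ ≤ x → hat M ξ = hat M x := by
  obtain ⟨γ, hγ, h⟩ := hx (M ∩ Iio x) (hMc.mono inter_subset_left) (fun c hc => hc.2)
  refine ⟨γ, hγ, fun ξ h1 h2 => ?_⟩
  obtain ⟨a1, a2, a3⟩ := hat_spec hM ξ
  obtain ⟨b1, b2, b3⟩ := hat_spec hM x
  apply le_antisymm
  · exact a3 _ b1 (h2.trans b2)
  · apply b3 _ a1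
    by_contra h3
    have h4 := h _ ⟨a1, not_le.1 h3⟩
    exact absurd (h1.trans_le a2) (not_lt.2 h4.le)

theorem co_hat {K : Type} {M : Set I} (hM : ⊤ ∈ M) (hMc : M.Countable) (p : I → K) :
    Co (fun ξ => p (hat M ξ)) := by
  intro x hx
  obtain ⟨γ, hγ, h⟩ := hat_const hM hMc x hx
  exact ⟨γ, hγ, fun ξ h1 h2 => by simp only; rw [h ξ h1 h2]⟩

/-- if `M` is closed off, members of the countable family are constant on pieces -/
theorem eq_hat {K : Type} {M : Set I} (hM : ⊤ ∈ M)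
    (h2 : ∀ α ∈ M, ¬ UC α → ∀ ξ < α, ∃ c ∈ M, ξ ≤ c ∧ c < α) (h : I → K)
    (h3 : ∀ α ∈ M, UC α → ∃ γ ∈ M, γ < α ∧ ∀ ξ, γ < ξ → ξ ≤ α → h ξ = h α) (ξ : I) :
    h ξ = h (hat M ξ) := by
  obtain ⟨a1, a2, a3⟩ := hat_spec hM ξ
  rcases a2.eq_or_lt with e | e
  · rw [← e]
  by_cases hu : UC (hat M ξ)
  · obtain ⟨γ, hγM, hγ, h4⟩ := h3 _ a1 hu
    refine h4 ξ ?_ a2
    by_contra hcon
    exact absurd (a3 γ hγM (not_lt.1 hcon)) (not_le.2 hγ)
  · obtain ⟨c, hc, h4, h5⟩ := h2 _ a1 hu ξ e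
    exact absurd (a3 c hc h4) (not_le.2 h5)

end gen

section space

variable (I : Type) [LinearOrder I] [WellFoundedLT I] [OrderTop I]

/-- the space -/
abbrev Y : Type :=
  {f : I → Bool × Bool // Co f ∧ ∀ ξ η, (f ξ).2 = true → (f η).2 = true → ξ = η}

variable {I}

/-- closing off: for a representative function `R` -/
theorem closeY (R : Finset I → Set (Y I)) (hR : ∀ E, (R E).Countable) :
    ∃ M : Set I, ⊤ ∈ M ∧ M.Countable ∧
      (∀ E : Finset I, (E : Set I) ⊆ M → ∀ h ∈ R E, ∀ ξ, h.1 ξ = h.1 (hat M ξ)) := by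
  classical
  have hC : ∀ α : I, ∃ C : Set I, C.Countable ∧ (¬ UC α → ∀ ξ < α, ∃ c ∈ C, ξ ≤ c ∧ c < α) := by
    intro α
    by_cases hu : UC α
    · exact ⟨∅, Set.countable_empty, fun h => absurd hu h⟩
    · unfold UC at hu
      push Not at hu
      obtain ⟨C, hC, h1, h2⟩ := hu
      exact ⟨C, hC, fun _ ξ hξ => by
        obtain ⟨c, hc, h⟩ := h2 ξ hξ
        exact ⟨c, hc, h, h1 c hc⟩⟩
  choose C hCc hC using hC
  have hg : ∀ (h : Y I) (α : I), ∃ γ : I, UC α → γ < α ∧ ∀ ξ, γ < ξ → ξ ≤ α → h.1 ξ = h.1 α := by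
    intro h α
    by_cases hu : UC α
    · obtain ⟨γ, hγ, h'⟩ := h.2.1 α hu
      exact ⟨γ, fun _ => ⟨hγ, h'⟩⟩
    · exact ⟨α, fun h => absurd h hu⟩
  choose g hg using hg
  obtain ⟨M, hM0, hMc, hM⟩ := close
    (fun E : Finset I => (⋃ α ∈ E, C α) ∪ ⋃ E' ∈ E.powerset, ⋃ h ∈ R E', ⋃ α ∈ E, {g h α})
    (by
      intro E
      refine Set.Countable.union ?_ ?_
      · exact E.countable_toSet.biUnion fun α _ => hCc α
      · refine (Finset.countable_toSet _).biUnion fun E' _ => ?_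
        refine (hR E').biUnion fun h _ => ?_
        exact E.countable_toSet.biUnion fun α _ => Set.countable_singleton _)
    {⊤} (Set.countable_singleton _)
  have htop : ⊤ ∈ M := hM0 rfl
  refine ⟨M, htop, hMc, fun E hE h hh ξ => ?_⟩
  refine eq_hat htop ?_ h.1 ?_ ξ
  · intro α hα hu ξ hξ
    obtain ⟨c, hc, h1⟩ := hC α hu ξ hξ
    refine ⟨c, ?_, h1⟩
    apply hM {α} (by simpa using hα)
    left
    simpa using hc
  · intro α hα hu
    refine ⟨g h α, ?_, hg h α hu⟩
    apply hM (insert α E) (by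
      rw [Finset.coe_insert]
      exact Set.insert_subset hα hE)
    right
    refine Set.mem_biUnion (show E ∈ ((insert α E).powerset : Set (Finset I)) from ?_) ?_
    · simp
    · refine Set.mem_biUnion hh ?_
      refine Set.mem_biUnion (show α ∈ ((insert α E : Finset I) : Set I) from by simp) rfl

instance normal : NormalSpace (Y I) := by
  classical
  constructor
  intro F G hF hG hFG
  choose RF hRF hRFc hRF' using fun E => repr (fun y : Y I => y.1) F E
  choose RG hRG hRGc hRG' using fun E => repr (fun y : Y I => y.1) G E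
  obtain ⟨M, htop, hMc, hM⟩ := closeY (fun E => RF E ∪ RG E) (fun E => (hRFc E).union (hRGc E))
  let π : Y I → (M → Bool × Bool) := fun y m => y.1 m
  have hπ : Continuous π :=
    continuous_pi fun m => (continuous_apply (m : I)).comp continuous_subtype_val
  have key : Disjoint (closure (π '' F)) (closure (π '' G)) := by
    rw [Set.disjoint_left]
    intro p hpF hpG
    -- finite approximation
    have happ : ∀ H : Set (Y I), p ∈ closure (π '' H) → ∀ E : Finset I, (E : Set I) ⊆ M →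
        ∃ f ∈ H, ∀ x (hx : x ∈ E) (hxM : x ∈ M), f.1 x = p ⟨x, hxM⟩ := by
      intro H hp E hE
      have hopen : IsOpen {q : M → Bool × Bool | ∀ x (hx : x ∈ E) (hxM : x ∈ M),
          q ⟨x, hxM⟩ = p ⟨x, hxM⟩} := by
        have : {q : M → Bool × Bool | ∀ x (hx : x ∈ E) (hxM : x ∈ M),
            q ⟨x, hxM⟩ = p ⟨x, hxM⟩} =
            ⋂ x ∈ E, {q : M → Bool × Bool | ∀ (hxM : x ∈ M), q ⟨x, hxM⟩ = p ⟨x, hxM⟩} := by
          ext q
          simp
        rw [this]
        refine isOpen_biInter_finset fun x hx => ?_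
        by_cases hxM : x ∈ M
        · have : {q : M → Bool × Bool | ∀ (hxM : x ∈ M), q ⟨x, hxM⟩ = p ⟨x, hxM⟩} =
              (fun q : M → Bool × Bool => q ⟨x, hxM⟩) ⁻¹' {p ⟨x, hxM⟩} := by
            ext q
            simp [hxM]
          rw [this]
          exact (isOpen_discrete _).preimage (continuous_apply _)
        · have : {q : M → Bool × Bool | ∀ (hxM : x ∈ M), q ⟨x, hxM⟩ = p ⟨x, hxM⟩} = univ := by
            ext q
            simp [hxM]
          rw [this]
          exact isOpen_univ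
      obtain ⟨q, hq1, f, hf, rfl⟩ := mem_closure_iff.1 hp _ hopen (fun x hx hxM => rfl)
      exact ⟨f, hf, fun x hx hxM => hq1 x hx hxM⟩
    have hatM : ∀ ξ, hat M ξ ∈ M := fun ξ => (hat_spec htop ξ).1
    let fp : I → Bool × Bool := fun ξ => p ⟨hat M ξ, hatM ξ⟩
    -- approximations by members of the countable family
    have happ2 : ∀ (H : Set (Y I)) (R : Finset I → Set (Y I)), (∀ E, R E ⊆ H) →
        (∀ E, R E ⊆ RF E ∪ RG E) →
        (∀ E, ∀ f ∈ H, ∃ f' ∈ R E, ∀ x ∈ E, f'.1 x = f.1 x) → p ∈ closure (π '' H) →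
        ∀ E : Finset I, ∃ f ∈ H, ∀ x ∈ E, f.1 x = fp x := by
      intro H R hRH hRR hR hp E
      have hE' : ((E.image (hat M) : Finset I) : Set I) ⊆ M := by
        intro x hx
        rw [Finset.coe_image] at hx
        obtain ⟨y, -, rfl⟩ := hx
        exact hatM y
      obtain ⟨f, hf, h1⟩ := happ H hp (E.image (hat M)) hE'
      obtain ⟨f', hf', h2⟩ := hR (E.image (hat M)) f hf
      refine ⟨f', hRH _ hf', fun x hx => ?_⟩
      rw [hM _ hE' f' (hRR _ hf') x, h2 _ (Finset.mem_image_of_mem _ hx),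
        h1 _ (Finset.mem_image_of_mem _ hx) (hatM x)]
    have hF2 := happ2 F RF hRF (fun E => subset_union_left) (fun E f hf => hRF' E f hf) hpF
    have hG2 := happ2 G RG hRG (fun E => subset_union_right) (fun E f hf => hRG' E f hf) hpG
    have hco : Co fp := by
      let P : I → Bool × Bool := fun x => if hx : x ∈ M then p ⟨x, hx⟩ else (true, true)
      have h1 : fp = fun ξ => P (hat M ξ) := by
        funext ξ
        simp only [fp, P]
        rw [dif_pos (hatM ξ)]
      rw [h1]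
      exact co_hat htop hMc P
    have hone : ∀ ξ η, (fp ξ).2 = true → (fp η).2 = true → ξ = η := by
      intro ξ η h1 h2
      obtain ⟨f, -, hf⟩ := hF2 {ξ, η}
      rw [← hf ξ (by simp)] at h1
      rw [← hf η (by simp)] at h2
      exact f.2.2 ξ η h1 h2
    let y : Y I := ⟨fp, hco, hone⟩
    have hcl : ∀ H : Set (Y I), IsClosed H → (∀ E : Finset I, ∃ f ∈ H, ∀ x ∈ E, f.1 x = fp x) →
        y ∈ H := by
      intro H hH hE
      rw [← hH.closure_eq, mem_closure_iff]
      intro O hO hyO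
      obtain ⟨O', hO', rfl⟩ := isOpen_induced_iff.1 hO
      obtain ⟨E, u, hu, hsub⟩ := isOpen_pi_iff.1 hO' fp hyO
      obtain ⟨f, hf, h⟩ := hE E
      refine ⟨f, hsub ?_, hf⟩
      intro x hx
      rw [h x hx]
      exact (hu x hx).2
    exact Set.disjoint_left.1 hFG (hcl F hF hF2) (hcl G hG hG2)
  have hsep : SeparatedNhds (closure (π '' F)) (closure (π '' G)) :=
    NormalSpace.normal _ _ isClosed_closure isClosed_closure key
  refine (hsep.preimage hπ).mono ?_ ?_
  · intro y hy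
    exact subset_closure (mem_image_of_mem _ hy)
  · intro y hy
    exact subset_closure (mem_image_of_mem _ hy)

end space

end Pool.Agent.H162R3.NW
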