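import Mathlib
import Pool.Agent.H162R3.NW1

set_option autoImplicit false

open Set Topology

namespace Pool.Agent.H162R3.NW

section pairs

variable {I : Type} [LinearOrder I]

theorem Co.fst {f : I → Bool × Bool} (h : Co f) : Co (fun x => (f x).1) := by
  intro x hx
  obtain ⟨γ, hγ, h'⟩ := h x hx
  exact ⟨γ, hγ, fun ξ h1 h2 => by simp only; rw [h' ξ h1 h2]⟩

theorem Co.snd {f : I → Bool × Bool} (h : Co f) : Co (fun x => (f x).2) := by
  intro x hx
  obtain ⟨γ, hγ, h'⟩ := h x hx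
  exact ⟨γ, hγ, fun ξ h1 h2 => by simp only; rw [h' ξ h1 h2]⟩

theorem Co.pair {a b : I → Bool} (ha : Co a) (hb : Co b) : Co (fun x => (a x, b x)) := by
  intro x hx
  obtain ⟨γ, hγ, h⟩ := ha x hx
  obtain ⟨γ', hγ', h'⟩ := hb x hx
  refine ⟨max γ γ', max_lt hγ hγ', fun ξ h1 h2 => ?_⟩
  simp only
  rw [h ξ ((le_max_left _ _).trans_lt h1) h2, h' ξ ((le_max_right _ _).trans_lt h1) h2]

end pairs

variable {I : Type} [LinearOrder I] [WellFoundedLT I] [OrderTop I]

theorem basic (U : Set (Y I)) (hU : IsOpen U) (y : Y I) (hy : y ∈ U) :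
    ∃ E : Finset I, ∀ z : Y I, (∀ x ∈ E, z.1 x = y.1 x) → z ∈ U := by
  obtain ⟨O', hO', rfl⟩ := isOpen_induced_iff.1 hU
  obtain ⟨E, u, hu, hsub⟩ := isOpen_pi_iff.1 hO' y.1 hy
  refine ⟨E, fun z hz => hsub ?_⟩
  intro x hx
  rw [hz x hx]
  exact (hu x hx).2

/-- good conditions -/
def Good (𝒰 : Set (Set (Y I))) (p : Finset I × (I → Bool)) : Prop :=
  ∃ 𝒱 : Set (Set (Y I)), 𝒱 ⊆ 𝒰 ∧ 𝒱.Countable ∧
    ∀ y : Y I, (∀ x ∈ p.1, (y.1 x).1 = p.2 x) → y ∈ ⋃₀ 𝒱

theorem good_exists (𝒰 : Set (Set (Y I))) (hU : ∀ U ∈ 𝒰, IsOpen U) (hcov : ⋃₀ 𝒰 = univ)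
    (y : Y I) : ∃ E : Finset I, Good 𝒰 (E, fun x => (y.1 x).1) := by
  classical
  have hpick : ∀ z : Y I, ∃ U ∈ 𝒰, ∃ E : Finset I, ∀ w : Y I, (∀ x ∈ E, w.1 x = z.1 x) → w ∈ U := by
    intro z
    have : z ∈ ⋃₀ 𝒰 := by rw [hcov]; trivial
    obtain ⟨U, hU', hz⟩ := this
    obtain ⟨E, hE⟩ := basic U (hU U hU') z hz
    exact ⟨U, hU', E, hE⟩
  choose U hUm EE hEE using hpick
  let y0 : Y I := ⟨fun x => ((y.1 x).1, false), y.2.1.fst.pair (fun x hx => by
    obtain ⟨γ, hγ, -⟩ := y.2.1 x hx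
    exact ⟨γ, hγ, fun _ _ _ => rfl⟩), fun ξ η h => by simp at h⟩
  let Q : I → Y I → Prop := fun ξ z => (∀ x, (z.1 x).1 = (y.1 x).1) ∧ (z.1 ξ).2 = true
  let zz : I → Y I := fun ξ => if h : ∃ z, Q ξ z then h.choose else y0
  have hzz : ∀ ξ z, Q ξ z → Q ξ (zz ξ) := by
    intro ξ z hz
    have h : ∃ z, Q ξ z := ⟨z, hz⟩
    simp only [zz]
    rw [dif_pos h]
    exact h.choose_spec
  refine ⟨EE y0 ∪ (EE y0).biUnion fun ξ => EE (zz ξ),
    insert (U y0) ((fun ξ => U (zz ξ)) '' (EE y0 : Set I)), ?_, ?_, ?_⟩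
  · apply Set.insert_subset (hUm y0)
    rintro _ ⟨ξ, -, rfl⟩
    exact hUm _
  · exact ((Finset.countable_toSet _).image _).insert _
  · intro w hw
    simp only at hw
    by_cases h : ∃ η ∈ EE y0, (w.1 η).2 = true
    · obtain ⟨η, hη, h1⟩ := h
      have hQ : Q η ⟨fun x => ((y.1 x).1, (w.1 x).2), y.2.1.fst.pair w.2.1.snd,
          fun ξ ζ h2 h3 => w.2.2 ξ ζ h2 h3⟩ := ⟨fun x => rfl, h1⟩
      have hQ' := hzz η _ hQ
      refine ⟨U (zz η), Or.inr ⟨η, hη, rfl⟩, ?_⟩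
      apply hEE
      intro x hx
      apply Prod.ext
      · rw [hw x (Finset.mem_union_right _ (Finset.mem_biUnion.2 ⟨η, hη, hx⟩)), hQ'.1 x]
      · by_cases hxη : x = η
        · rw [hxη, h1, hQ'.2]
        · have e1 : (w.1 x).2 = false := by
            by_contra hc
            exact hxη (w.2.2 x η (by simpa using hc) h1)
          have e2 : ((zz η).1 x).2 = false := by
            by_contra hc
            exact hxη ((zz η).2.2 x η (by simpa using hc) hQ'.2)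
          rw [e1, e2]
    · push Not at h
      refine ⟨U y0, Or.inl rfl, ?_⟩
      apply hEE
      intro x hx
      apply Prod.ext
      · exact hw x (Finset.mem_union_left _ hx)
      · have := h x hx
        simp only [y0]
        simpa using this

theorem weakLindelof (𝒰 : Set (Set (Y I))) (hU : ∀ U ∈ 𝒰, IsOpen U) (hcov : ⋃₀ 𝒰 = univ) :
    ∃ 𝒱 ⊆ 𝒰, 𝒱.Countable ∧ Dense (⋃₀ 𝒱) := by
  classical
  let Q : (E' : Finset I) → (E' → Bool) → Finset I × (I → Bool) → Prop := fun E' q p =>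
    Good 𝒰 p ∧ ∀ x ∈ p.1, ∀ hx : x ∈ E', p.2 x = q ⟨x, hx⟩
  let R : (E' : Finset I) → (E' → Bool) → Finset I × (I → Bool) := fun E' q =>
    if h : ∃ p, Q E' q p then h.choose else (∅, fun _ => true)
  have hR : ∀ E' q p, Q E' q p → Q E' q (R E' q) := by
    intro E' q p hp
    have h : ∃ p, Q E' q p := ⟨p, hp⟩
    simp only [R]
    rw [dif_pos h]
    exact h.choose_spec
  obtain ⟨M, hM0, hMc, hM⟩ := close (fun E' : Finset I => ⋃ q : E' → Bool, ((R E' q).1 : Set I))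
    (fun E' => Set.countable_iUnion fun q => Finset.countable_toSet _) {⊤}
    (Set.countable_singleton _)
  choose! V hV1 hV2 hV3 using fun (p : Finset I × (I → Bool)) (hp : Good 𝒰 p) => hp
  have hfin : {E : Finset I | (E : Set I) ⊆ M}.Countable := by
    have h1 := Set.countable_ofPred_finite_subset hMc
    refine Set.MapsTo.countable_of_injOn (f := fun E : Finset I => (E : Set I)) ?_ ?_ h1
    · intro E hE
      exact ⟨E.finite_toSet, hE⟩
    · intro E _ E' _ h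
      exact Finset.coe_injective h
  refine ⟨⋃ E' ∈ {E : Finset I | (E : Set I) ⊆ M}, ⋃ q : E' → Bool,
    {v | Good 𝒰 (R E' q) ∧ v ∈ V (R E' q)}, ?_, ?_, ?_⟩
  · intro v hv
    simp only [Set.mem_iUnion] at hv
    obtain ⟨E', hE', q, hg, hv⟩ := hv
    exact hV1 _ hg hv
  · refine hfin.biUnion fun E' _ => Set.countable_iUnion fun q => ?_
    by_cases hg : Good 𝒰 (R E' q)
    · exact (hV2 _ hg).mono fun v hv => hv.2
    · convert Set.countable_empty
      ext v
      simp [hg]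
  · rw [dense_iff_inter_open]
    rintro W hW ⟨y, hy⟩
    obtain ⟨E₁, hE₁⟩ := basic W hW y hy
    obtain ⟨E₂, hE₂⟩ := good_exists 𝒰 hU hcov y
    have hg : Good 𝒰 (E₁ ∪ E₂, fun x => (y.1 x).1) := by
      obtain ⟨𝒱, h1, h2, h3⟩ := hE₂
      exact ⟨𝒱, h1, h2, fun w hw => h3 w fun x hx => hw x (Finset.mem_union_right _ hx)⟩
    set E' : Finset I := (E₁ ∪ E₂).filter (· ∈ M) with hE'
    let q : E' → Bool := fun x => (y.1 x).1
    have hE'M : (E' : Set I) ⊆ M := by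
      intro x hx
      rw [hE', Finset.mem_coe, Finset.mem_filter] at hx
      exact hx.2
    have hQ := hR E' q (E₁ ∪ E₂, fun x => (y.1 x).1) ⟨hg, fun x _ hx => rfl⟩
    have hsub : ((R E' q).1 : Set I) ⊆ M := by
      refine Set.Subset.trans ?_ (hM E' hE'M)
      exact Set.subset_iUnion (fun q : E' → Bool => ((R E' q).1 : Set I)) q
    have hagree : ∀ x ∈ (R E' q).1, x ∈ E₁ ∪ E₂ → (R E' q).2 x = (y.1 x).1 := by
      intro x hx hx'
      have hxE : x ∈ E' := by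
        rw [hE', Finset.mem_filter]
        exact ⟨hx', hsub hx⟩
      exact hQ.2 x hx hxE
    let as : I → Bool := fun x => if x ∈ (R E' q).1 then (R E' q).2 x else (y.1 x).1
    let N : Set I := ((insert ⊤ ((R E' q).1 ∪ (E₁ ∪ E₂)) : Finset I) : Set I)
    have hNtop : ⊤ ∈ N := by simp [N]
    have hNc : N.Countable := Finset.countable_toSet _
    let z : Y I := ⟨fun x => (as (hat N x), (y.1 x).2), (co_hat hNtop hNc as).pair y.2.1.snd,
      fun ξ η h1 h2 => y.2.2 ξ η h1 h2⟩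
    have hz1 : ∀ x ∈ (R E' q).1, (z.1 x).1 = (R E' q).2 x := by
      intro x hx
      have h1 : hat N x = x := hat_of_mem hNtop (by simp [N, hx])
      show as (hat N x) = _
      rw [h1]
      simp only [as]
      rw [if_pos hx]
    have hz2 : ∀ x ∈ E₁, z.1 x = y.1 x := by
      intro x hx
      have h1 : hat N x = x := hat_of_mem hNtop (by simp [N, hx])
      apply Prod.ext
      · show as (hat N x) = _
        rw [h1]
        simp only [as]
        split_ifs with h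
        · exact hagree x h (Finset.mem_union_left _ hx)
        · rfl
      · rfl
    refine ⟨z, hE₁ z hz2, ?_⟩
    obtain ⟨v, hv, hzv⟩ := hV3 _ hQ.1 z hz1
    refine ⟨v, ?_, hzv⟩
    simp only [Set.mem_iUnion]
    exact ⟨E', hE'M, q, hQ.1, hv⟩

end Pool.Agent.H162R3.NW
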