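import Mathlib
import Pool.Agent.H162R3.NW2

set_option autoImplicit false

open Set Topology Cardinal

namespace Pool.Agent.H162R3.NW

theorem bdd (c : Cardinal.{0}) (hc : ℵ₀ ≤ c) (S : Set (Order.succ c).ord.ToType)
    (hS : #S ≤ c) : ∃ b, ∀ s ∈ S, s < b := by
  by_contra hcon
  push Not at hcon
  have h1 : (univ : Set (Order.succ c).ord.ToType) ⊆ ⋃ s : S, Iic (s : (Order.succ c).ord.ToType) := by
    intro x _
    obtain ⟨s, hs, h⟩ := hcon x
    exact Set.mem_iUnion.2 ⟨⟨s, hs⟩, h⟩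
  have h2 : #(univ : Set (Order.succ c).ord.ToType) = Order.succ c := by
    rw [Cardinal.mk_univ, Cardinal.mk_toType, Cardinal.card_ord]
  have h3 : ∀ s : (Order.succ c).ord.ToType, #(Iic s) ≤ c := by
    intro s
    have h4 : Iic s = insert s (Iio s) := by
      ext x
      simp [le_iff_eq_or_lt]
    rw [h4]
    refine (Cardinal.mk_insert_le).trans ?_
    have h5 : #(Iio s) ≤ c := Order.lt_succ_iff.1 (Cardinal.mk_Iio_toType_ord_lt s)
    calc #(Iio s) + 1 ≤ c + 1 := by gcongr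
      _ = c := Cardinal.add_one_eq hc
  have h4 : Order.succ c ≤ c := by
    rw [← h2]
    refine (Cardinal.mk_le_mk_of_subset h1).trans ?_
    refine (Cardinal.mk_iUnion_le_sum_mk).trans ?_
    refine (Cardinal.sum_le_sum _ (fun _ : S => c) fun s => h3 s).trans ?_
    rw [Cardinal.sum_const, Cardinal.lift_id, Cardinal.lift_id]
    calc #S * c ≤ c * c := by gcongr
      _ = c := Cardinal.mul_eq_self hc
  exact absurd (Order.lt_succ c) (not_lt.2 h4)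

section chain

variable {W₁ W₂ : Type} [LinearOrder W₁] [WellFoundedLT W₁] [LinearOrder W₂] [WellFoundedLT W₂]

theorem exists_chain (hS₁ : ∀ i : W₁, (Iio i).Countable)
    (hB₂ : ∀ S : Set W₂, #S ≤ ℵ₁ → ∃ b, ∀ s ∈ S, s < b)
    (Λ : Set W₂) (hΛ : ∀ w, ∃ l ∈ Λ, w < l) (h : W₂ → W₂) :
    ∃ lam : W₁ → W₂, (∀ i, lam i ∈ Λ) ∧ ∀ i j, j < i → lam j < lam i ∧ h (lam j) < lam i := by
  classical
  have hG : ∀ S : Set W₂, ∃ l ∈ Λ, S.Countable → ∀ s ∈ S, s < l ∧ h s < l := by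
    intro S
    by_cases hS : S.Countable
    · have hc : (S ∪ h '' S).Countable := hS.union (hS.image h)
      obtain ⟨b, hb⟩ := hB₂ (S ∪ h '' S)
        ((Cardinal.le_aleph0_iff_set_countable.2 hc).trans (Cardinal.aleph0_le_aleph 1))
      obtain ⟨l, hl, hbl⟩ := hΛ b
      exact ⟨l, hl, fun _ s hs => ⟨(hb s (Or.inl hs)).trans hbl,
        (hb (h s) (Or.inr ⟨s, hs, rfl⟩)).trans hbl⟩⟩
    · have : Nonempty W₂ := by
        obtain ⟨b, -⟩ := hB₂ ∅ (by simp)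
        exact ⟨b⟩
      obtain ⟨l, hl, -⟩ := hΛ (Classical.arbitrary W₂)
      exact ⟨l, hl, fun h => absurd h hS⟩
  choose G hG1 hG2 using hG
  let lam : W₁ → W₂ := (wellFounded_lt (α := W₁)).fix
    (fun i rec => G (Set.range fun j : Iio i => rec j.1 j.2))
  have hlam : ∀ i, lam i = G (Set.range fun j : Iio i => lam j.1) := by
    intro i
    simp only [lam]
    rw [WellFounded.fix_eq]
  refine ⟨lam, fun i => ?_, fun i j hij => ?_⟩
  · rw [hlam]
    exact hG1 _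
  · have hc : (Set.range fun j : Iio i => lam j.1).Countable := by
      have : Countable (Iio i) := (hS₁ i).to_subtype
      exact Set.countable_range _
    have := hG2 _ hc (lam j) ⟨⟨j, hij⟩, rfl⟩
    rw [← hlam i] at this
    exact this

theorem chain_sup (hc₁ : #W₁ ≤ ℵ₁) (hB₁ : ∀ S : Set W₁, S.Countable → ∃ b, ∀ s ∈ S, s < b)
    (hB₂ : ∀ S : Set W₂, #S ≤ ℵ₁ → ∃ b, ∀ s ∈ S, s < b)
    (lam : W₁ → W₂) (hlam : ∀ i j, j < i → lam j < lam i) :
    ∃ μ : W₂, (∀ i, lam i < μ) ∧ (∀ ξ < μ, ∃ i, ξ < lam i) ∧ UC (μ : WithTop W₂) := by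
  have hne : {w : W₂ | ∀ i, lam i < w}.Nonempty := by
    obtain ⟨b, hb⟩ := hB₂ (Set.range lam) (Cardinal.mk_range_le.trans hc₁)
    exact ⟨b, fun i => hb _ ⟨i, rfl⟩⟩
  set μ := WellFounded.min wellFounded_lt {w : W₂ | ∀ i, lam i < w} hne with hμ
  have h1 : ∀ i, lam i < μ := WellFounded.min_mem wellFounded_lt {w : W₂ | ∀ i, lam i < w} hne
  have h2 : ∀ ξ < μ, ∃ i, ξ < lam i := by
    intro ξ hξ
    have h3 : ¬ ∀ i, lam i < ξ := by
      intro h
      exact WellFounded.not_lt_min wellFounded_lt {w : W₂ | ∀ i, lam i < w} h hξ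
    push Not at h3
    obtain ⟨i, hi⟩ := h3
    obtain ⟨j, hj⟩ := hB₁ {i} (Set.countable_singleton i)
    exact ⟨j, hi.trans_lt (hlam j i (hj i rfl))⟩
  refine ⟨μ, h1, h2, ?_⟩
  intro C hC hCμ
  have h4 : ∀ c : WithTop W₂, ∃ i : W₁, c ∈ C → c < (lam i : WithTop W₂) := by
    intro c
    by_cases hc : c ∈ C
    · have hcμ := hCμ c hc
      obtain ⟨w, rfl⟩ := WithTop.ne_top_iff_exists.1 (ne_top_of_lt hcμ)
      obtain ⟨i, hi⟩ := h2 w (WithTop.coe_lt_coe.1 hcμ)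
      exact ⟨i, fun _ => WithTop.coe_lt_coe.2 hi⟩
    · obtain ⟨b, -⟩ := hB₁ ∅ Set.countable_empty
      exact ⟨b, fun h => absurd h hc⟩
  choose ι hι using h4
  obtain ⟨k, hk⟩ := hB₁ (ι '' C) (hC.image ι)
  refine ⟨lam k, WithTop.coe_lt_coe.2 (h1 k), fun c hc => ?_⟩
  exact (hι c hc).trans (WithTop.coe_lt_coe.2 (hlam _ _ (hk _ ⟨c, hc, rfl⟩)))

theorem no_lindelof (hc₁ : #W₁ ≤ ℵ₁) (hS₁ : ∀ i : W₁, (Iio i).Countable)
    (hB₁ : ∀ S : Set W₁, S.Countable → ∃ b, ∀ s ∈ S, s < b)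
    (hS₂ : ∀ w : W₂, #(Iio w) ≤ ℵ₁)
    (hB₂ : ∀ S : Set W₂, #S ≤ ℵ₁ → ∃ b, ∀ s ∈ S, s < b)
    (L : Set (Y (WithTop W₂))) (hL : IsLindelof L)
    (hLm : ∀ w : W₂, UC (w : WithTop W₂) → ∃ y ∈ L, (y.1 w).1 = true ∧ (y.1 ⊤).1 = false) :
    False := by
  classical
  have hW1 : ¬ (univ : Set W₁).Countable := by
    intro h
    obtain ⟨b, hb⟩ := hB₁ univ h
    exact lt_irrefl _ (hb b trivial)
  have hne2 : Nonempty W₂ := by
    obtain ⟨b, -⟩ := hB₂ ∅ (by simp)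
    exact ⟨b⟩
  have hUCtop : UC (⊤ : WithTop W₂) := by
    intro C hC hCt
    have h1 : ((↑) ⁻¹' C : Set W₂).Countable := hC.preimage WithTop.coe_injective
    obtain ⟨b, hb⟩ := hB₂ _ ((Cardinal.le_aleph0_iff_set_countable.2 h1).trans (Cardinal.aleph0_le_aleph 1))
    refine ⟨b, WithTop.coe_lt_top b, fun c hc => ?_⟩
    obtain ⟨w, rfl⟩ := WithTop.ne_top_iff_exists.1 (ne_top_of_lt (hCt c hc))
    exact WithTop.coe_lt_coe.2 (hb w hc)
  -- the choice of functions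
  have hdat : ∀ w : W₂, ∃ (y : Y (WithTop W₂)) (g k : W₂), UC (w : WithTop W₂) →
      y ∈ L ∧ g < w ∧ (∀ ξ : W₂, g < ξ → ξ ≤ w → (y.1 ξ).1 = true) ∧
        ∀ ξ : W₂, k < ξ → (y.1 ξ).1 = false := by
    intro w
    by_cases hw : UC (w : WithTop W₂)
    · obtain ⟨y, hyL, h1, h2⟩ := hLm w hw
      obtain ⟨γ, hγ, h3⟩ := y.2.1 w hw
      obtain ⟨k, hk, h4⟩ := y.2.1 ⊤ hUCtop
      obtain ⟨g, rfl⟩ := WithTop.ne_top_iff_exists.1 (ne_top_of_lt hγ)
      obtain ⟨k, rfl⟩ := WithTop.ne_top_iff_exists.1 (ne_top_of_lt hk)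
      refine ⟨y, g, k, fun _ => ⟨hyL, WithTop.coe_lt_coe.1 hγ, fun ξ h5 h6 => ?_, fun ξ h5 => ?_⟩⟩
      · rw [h3 ξ (WithTop.coe_lt_coe.2 h5) (WithTop.coe_le_coe.2 h6), h1]
      · rw [h4 ξ (WithTop.coe_lt_coe.2 h5) le_top, h2]
    · exact ⟨⟨fun _ => (false, false), fun x hx => by
        obtain ⟨γ, hγ, -⟩ := hx ∅ Set.countable_empty (by simp)
        exact ⟨γ, hγ, fun _ _ _ => rfl⟩, fun ξ η h => by simp at h⟩, w, w, fun h => absurd h hw⟩
  choose y g k hdat using hdat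
  -- stabilise g
  obtain ⟨g0, hg0⟩ : ∃ g0 : W₂, ∀ b : W₂, ∃ w : W₂, UC (w : WithTop W₂) ∧ g w ≤ g0 ∧ b < w := by
    by_contra hcon
    push Not at hcon
    choose b hb using hcon
    have hB : ∀ w : W₂, ∃ v : W₂, ∀ u ≤ w, b u < v := by
      intro w
      obtain ⟨v, hv⟩ := hB₂ (b '' Iic w) (by
        refine Cardinal.mk_image_le.trans ?_
        have h4 : Iic w = insert w (Iio w) := by
          ext x
          simp [le_iff_eq_or_lt]
        rw [h4]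
        refine (Cardinal.mk_insert_le).trans ?_
        calc #(Iio w) + 1 ≤ ℵ₁ + 1 := by gcongr; exact hS₂ w
          _ = ℵ₁ := Cardinal.add_one_eq (Cardinal.aleph0_le_aleph 1))
      exact ⟨v, fun u hu => hv _ ⟨u, hu, rfl⟩⟩
    choose B hB using hB
    obtain ⟨lam, -, hlam⟩ := exists_chain (W₁ := W₁) hS₁ hB₂ univ (fun w => by
      obtain ⟨v, hv⟩ := hB₂ {w} (by
        rw [Cardinal.mk_singleton]
        exact Cardinal.one_le_aleph0.trans (Cardinal.aleph0_le_aleph 1))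
      exact ⟨v, trivial, hv w rfl⟩) B
    obtain ⟨μ, h1, h2, h3⟩ := chain_sup hc₁ hB₁ hB₂ lam (fun i j hij => (hlam i j hij).1)
    have h4 := (hdat μ h3).2.1
    obtain ⟨i, hi⟩ := h2 _ h4
    obtain ⟨j, hj⟩ := hB₁ {i} (Set.countable_singleton i)
    have h5 : μ ≤ b (g μ) := hb (g μ) μ h3 le_rfl
    have h6 : b (g μ) < B (lam i) := hB _ _ hi.le
    have h7 := (hlam j i (hj i rfl)).2
    exact absurd ((h5.trans_lt h6).trans (h7.trans (h1 j))) (lt_irrefl _)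
  obtain ⟨lam, hΛ, hlam⟩ := exists_chain (W₁ := W₁) hS₁ hB₂
    {w : W₂ | UC (w : WithTop W₂) ∧ g w ≤ g0 ∧ g0 < w} (fun w => by
      obtain ⟨v, h1, h2, h3⟩ := hg0 (max w g0)
      exact ⟨v, ⟨h1, h2, (le_max_right _ _).trans_lt h3⟩, (le_max_left _ _).trans_lt h3⟩) k
  obtain ⟨μ, h1, h2, h3⟩ := chain_sup hc₁ hB₁ hB₂ lam (fun i j hij => (hlam i j hij).1)
  have hup : ∀ i : W₁, ∃ j, i < j := fun i => by
    obtain ⟨j, hj⟩ := hB₁ {i} (Set.countable_singleton i)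
    exact ⟨j, hj i rfl⟩
  have hμ : ∀ i, ((y (lam i)).1 μ).1 = false := by
    intro i
    apply (hdat (lam i) (hΛ i).1).2.2.2
    obtain ⟨j, hj⟩ := hup i
    exact (hlam j i hj).2.trans (h1 j)
  have hone : ∀ i j, j ≤ i → ((y (lam i)).1 (lam j)).1 = true := by
    intro i j hij
    apply (hdat (lam i) (hΛ i).1).2.2.1
    · exact (hΛ i).2.1.trans_lt (hΛ j).2.2
    · rcases hij.eq_or_lt with e | e
      · rw [e]
      · exact (hlam i j e).1.le
  -- complete accumulation point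
  obtain ⟨z, hzL, hz⟩ : ∃ z ∈ L, ∀ U : Set (Y (WithTop W₂)), IsOpen U → z ∈ U →
      ¬ {i : W₁ | y (lam i) ∈ U}.Countable := by
    by_contra hcon
    push Not at hcon
    choose! U hU1 hU2 hU3 using hcon
    obtain ⟨t, ht, htL, hcov⟩ := hL.elim_nhds_subcover U
      (fun z hz => (hU1 z hz).mem_nhds (hU2 z hz))
    apply hW1
    refine (ht.biUnion fun z hz => hU3 z (htL z hz)).mono ?_
    intro i _
    obtain ⟨z, hz, hi⟩ := Set.mem_iUnion₂.1 (hcov (hdat (lam i) (hΛ i).1).1)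
    exact Set.mem_biUnion hz hi
  have hop : ∀ (x : WithTop W₂) (b : Bool), IsOpen {y : Y (WithTop W₂) | (y.1 x).1 = b} := by
    intro x b
    have hcont : Continuous fun y : Y (WithTop W₂) => (y.1 x).1 :=
      continuous_fst.comp ((continuous_apply x).comp continuous_subtype_val)
    exact (isOpen_discrete {b}).preimage hcont
  have hzμ : (z.1 μ).1 = false := by
    by_contra hcon
    have h5 : (z.1 μ).1 = true := by simpa using hcon
    apply hz _ (hop μ true) h5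
    convert Set.countable_empty
    ext i
    simp [hμ i]
  obtain ⟨γ, hγ, h4⟩ := z.2.1 μ h3
  obtain ⟨γ, rfl⟩ := WithTop.ne_top_iff_exists.1 (ne_top_of_lt hγ)
  obtain ⟨j, hj⟩ := h2 γ (WithTop.coe_lt_coe.1 hγ)
  have h5 : (z.1 (lam j)).1 = false := by
    rw [h4 (lam j) (WithTop.coe_lt_coe.2 hj) (WithTop.coe_le_coe.2 (h1 j).le), hzμ]
  apply hz _ (hop (lam j) false) h5
  refine (hS₁ j).mono ?_
  intro i hi
  by_contra hcon
  have h6 := hone i j (not_lt.1 hcon)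
  have h7 : ((y (lam i)).1 (lam j)).1 = false := hi
  rw [h6] at h7
  exact absurd h7 (by simp)

end chain

end Pool.Agent.H162R3.NW
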