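import Mathlib

set_option autoImplicit false

namespace H162R3.PR

open Filter Topology Set

/-- Every non-closed set contains a transfinite sequence converging to a point outside it. -/
def PseudoRadial (G : Type) [TopologicalSpace G] : Prop :=
  ∀ A : Set G, ¬ IsClosed A →
    ∃ (ι : Type) (_ : LinearOrder ι), WellFoundedLT ι ∧ Nonempty ι ∧
      ∃ (x : ι → G) (p : G), (∀ i, x i ∈ A) ∧ p ∉ A ∧ Tendsto x atTop (𝓝 p)

/-- In a pseudoradial T1 space, a sequence with a cluster point has a convergent subsequence. -/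
theorem PseudoRadial.seq {G : Type} [TopologicalSpace G] [T1Space G] (h : PseudoRadial G)
    (x : ℕ → G) (c : G) (hc : MapClusterPt c atTop x) :
    ∃ φ : ℕ → ℕ, StrictMono φ ∧ ∃ a, Tendsto (x ∘ φ) atTop (𝓝 a) := by
  by_cases hA : ∃ v, ∃ᶠ n in atTop, x n = v
  · obtain ⟨v, hv⟩ := hA
    obtain ⟨φ, hφ, hφ2⟩ := Filter.extraction_of_frequently_atTop hv
    refine ⟨φ, hφ, v, ?_⟩
    have : x ∘ φ = fun _ => v := by
      funext n; exact hφ2 n
    rw [this]; exact tendsto_const_nhds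
  · push Not at hA
    set A : Set G := range x \ {c} with hAdef
    have hncl : ¬ IsClosed A := by
      intro hcl
      have hmem : Aᶜ ∈ 𝓝 c := hcl.isOpen_compl.mem_nhds (by simp [hAdef])
      have hf := (mapClusterPt_iff_frequently.1 hc) Aᶜ hmem
      obtain ⟨n, hn, hne⟩ := (hf.and_eventually (hA c)).exists
      exact hn ⟨⟨n, rfl⟩, hne⟩
    obtain ⟨ι, _, hwf, hne, y, p, hyA, hpA, hy⟩ := h A hncl
    have h0 : ∀ m : ℕ, ∃ i0 : ι, ∀ i ≥ i0, y i ≠ x m := by
      intro m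
      by_cases hm : x m ∈ A
      · have hpm : p ≠ x m := fun e => hpA (e ▸ hm)
        have : ∀ᶠ i in atTop, y i ≠ x m := hy (isOpen_compl_singleton.mem_nhds hpm)
        exact (eventually_atTop.1 this)
      · exact ⟨Classical.arbitrary ι, fun i _ e => hm (e ▸ hyA i)⟩
    choose i0 hi0 using h0
    let I : ℕ → ι := fun n => (Finset.range (n+1)).sup' ⟨0, by simp⟩ i0
    have hIge : ∀ n k, k ≤ n → i0 k ≤ I n := by
      intro n k hk
      exact Finset.le_sup' i0 (by simpa [Nat.lt_succ_iff] using hk)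
    have hmono : Monotone I := by
      intro n m hnm
      refine Finset.sup'_mono i0 ?_ _
      intro k hk
      simp only [Finset.mem_range] at hk ⊢
      omega
    have hyr : ∀ i, ∃ m, x m = y i := fun i => (hyA i).1
    have hunb : ∀ i, ∃ n, i ≤ I n := by
      intro i
      obtain ⟨m, hm⟩ := hyr i
      refine ⟨m, ?_⟩
      by_contra hlt
      have hlt' : I m ≤ i := le_of_lt (not_le.1 hlt)
      exact hi0 m i ((hIge m m le_rfl).trans hlt') hm.symm
    have htend : Tendsto I atTop atTop := tendsto_atTop_atTop_of_monotone hmono hunb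
    choose m hm using fun n => hyr (I n)
    have hmn : ∀ n, n < m n := by
      intro n
      by_contra hlt
      have hle : m n ≤ n := not_lt.1 hlt
      exact hi0 (m n) (I n) (hIge n (m n) hle) (hm n).symm
    have hmt : Tendsto m atTop atTop :=
      tendsto_atTop_mono (fun n => (hmn n).le) tendsto_id
    obtain ⟨φ, hφ, hφ2⟩ := Filter.strictMono_subseq_of_tendsto_atTop hmt
    refine ⟨m ∘ φ, hφ2, p, ?_⟩
    have h1 : Tendsto (fun n => y (I n)) atTop (𝓝 p) := hy.comp htend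
    have h2 : Tendsto (fun n => y (I (φ n))) atTop (𝓝 p) := h1.comp hφ.tendsto_atTop
    refine h2.congr ?_
    intro n
    simp [hm]

/-- bounded test: sequences of 0-1 functions -/
def SC (B : Type) : Prop :=
  ∀ y : ℕ → B → Bool, ∃ φ : ℕ → ℕ, StrictMono φ ∧ ∃ a, Tendsto (y ∘ φ) atTop (𝓝 a)

theorem SC.of_injective {B B' : Type} (f : B' → B) (hf : Function.Injective f) (h : SC B) :
    SC B' := by
  intro y
  classical
  let g : (B' → Bool) → (B → Bool) := fun u b => if hb : ∃ b', f b' = b then u hb.choose else false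
  have hg : ∀ u b', g u (f b') = u b' := by
    intro u b'
    have hb : ∃ b'', f b'' = f b' := ⟨b', rfl⟩
    have : hb.choose = b' := hf hb.choose_spec
    simp only [g, hb, dif_pos, this]
  obtain ⟨φ, hφ, a, ha⟩ := h (fun n => g (y n))
  refine ⟨φ, hφ, fun b' => a (f b'), ?_⟩
  rw [tendsto_pi_nhds] at ha ⊢
  intro b'
  refine (ha (f b')).congr ?_
  intro n
  simp [hg]

section padic

variable (p : ℕ) [Fact p.Prime] {B : Type}

theorem approx1 (H : AddSubgroup (B → ℤ_[p]))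
    (hess : ∀ x : B → ℤ_[p], x ≠ 0 → ∃ l : ℤ_[p], l • x ∈ H ∧ l • x ≠ 0)
    (x : B → ℤ_[p]) :
    ∃ k : ℕ, ∀ ε > (0:ℝ), ∃ μ : ℤ_[p], μ • x ∈ H ∧ ‖μ - (p:ℤ_[p])^k‖ < ε := by
  by_cases hx : x = 0
  · exact ⟨0, fun ε hε => ⟨1, by simp [hx, H.zero_mem], by simpa using hε⟩⟩
  · obtain ⟨l, hlH, hl0⟩ := hess x hx
    have hl : l ≠ 0 := fun e => hl0 (by simp [e])
    refine ⟨l.valuation, fun ε hε => ?_⟩
    set u := PadicInt.unitCoeff hl with hu
    have hlu : l = (u : ℤ_[p]) * (p:ℤ_[p])^l.valuation := PadicInt.unitCoeff_spec hl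
    have hd := PadicInt.denseRange_intCast (p := p)
    obtain ⟨m, hm⟩ := Metric.denseRange_iff.1 hd ((u⁻¹ : ℤ_[p]ˣ) : ℤ_[p]) ε hε
    refine ⟨(m : ℤ_[p]) * l, ?_, ?_⟩
    · have : ((m : ℤ_[p]) * l) • x = m • (l • x) := by
        rw [mul_smul, Int.cast_smul_eq_zsmul]
      rw [this]
      exact H.zsmul_mem hlH m
    · have hp : ((u⁻¹ : ℤ_[p]ˣ) : ℤ_[p]) * l = (p:ℤ_[p])^l.valuation := by
        conv_lhs => rw [hlu]
        rw [← mul_assoc, Units.inv_mul, one_mul]
      rw [← hp, ← sub_mul, norm_mul]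
      have h1 : ‖(m : ℤ_[p]) - ((u⁻¹ : ℤ_[p]ˣ) : ℤ_[p])‖ < ε := by
        rw [← dist_eq_norm, dist_comm]; exact hm
      calc _ ≤ ‖(m : ℤ_[p]) - ((u⁻¹ : ℤ_[p]ˣ) : ℤ_[p])‖ * 1 := by
            gcongr
            exact PadicInt.norm_le_one l
        _ < ε := by simpa using h1

theorem approx2 (H : AddSubgroup (B → ℤ_[p])) (x : B → ℤ_[p]) (k : ℕ)
    (hk : ∀ ε > (0:ℝ), ∃ μ : ℤ_[p], μ • x ∈ H ∧ ‖μ - (p:ℤ_[p])^k‖ < ε) (l : ℤ_[p]) :
    ∀ ε > (0:ℝ), ∃ μ : ℤ_[p], μ • x ∈ H ∧ ‖μ - l * (p:ℤ_[p])^k‖ < ε := by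
  intro ε hε
  obtain ⟨μ, hμ, hμ2⟩ := hk ε hε
  have hd := PadicInt.denseRange_intCast (p := p)
  obtain ⟨m, hm⟩ := Metric.denseRange_iff.1 hd l ε hε
  refine ⟨(m : ℤ_[p]) * μ, ?_, ?_⟩
  · rw [mul_smul, Int.cast_smul_eq_zsmul]
    exact H.zsmul_mem hμ m
  · have : (m : ℤ_[p]) * μ - l * (p:ℤ_[p])^k
        = (m : ℤ_[p]) * (μ - (p:ℤ_[p])^k) + (m - l) * (p:ℤ_[p])^k := by ring
    rw [this]
    refine lt_of_le_of_lt (PadicInt.nonarchimedean _ _) (max_lt ?_ ?_)
    · rw [norm_mul]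
      calc _ ≤ 1 * ‖μ - (p:ℤ_[p])^k‖ := by
            gcongr
            exact PadicInt.norm_le_one _
        _ < ε := by simpa using hμ2
    · rw [norm_mul]
      have h1 : ‖(m : ℤ_[p]) - l‖ < ε := by
        rw [← dist_eq_norm, dist_comm]; exact hm
      calc _ ≤ ‖(m : ℤ_[p]) - l‖ * 1 := by
            gcongr
            exact PadicInt.norm_le_one _
        _ < ε := by simpa using h1

/-- 0-1 valued p-adic vector -/
noncomputable def ind (y : B → Bool) : B → ℤ_[p] := fun b => if y b then 1 else 0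

theorem core (e : B ≃ ℕ × B) (H : AddSubgroup (B → ℤ_[p]))
    (hess : ∀ x : B → ℤ_[p], x ≠ 0 → ∃ l : ℤ_[p], l • x ∈ H ∧ l • x ≠ 0)
    (hseq : ∀ (x : ℕ → B → ℤ_[p]) (c : B → ℤ_[p]), (∀ n, x n ∈ H) → c ∈ H →
      MapClusterPt c atTop x → ∃ φ : ℕ → ℕ, StrictMono φ ∧ ∃ a, Tendsto (x ∘ φ) atTop (𝓝 a)) :
    SC B := by
  intro y
  let w : (ℕ → ℕ) → (B → Bool) := fun f b => y (f (e b).1) (e b).2
  let F : ℕ → Set (ℕ → ℕ) := fun k =>
    {f | ∀ ε > (0:ℝ), ∃ μ : ℤ_[p], μ • ind p (w f) ∈ H ∧ ‖μ - (p:ℤ_[p])^k‖ < ε}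
  have hF : ⋃ k, closure (F k) = univ := by
    rw [eq_univ_iff_forall]
    intro f
    obtain ⟨k, hk⟩ := approx1 p H hess (ind p (w f))
    exact mem_iUnion.2 ⟨k, subset_closure hk⟩
  obtain ⟨k, f0, hf0⟩ := nonempty_interior_of_iUnion_of_closed (fun k => isClosed_closure) hF
  obtain ⟨I, u, hu, hIu⟩ := isOpen_pi_iff.1 isOpen_interior f0 hf0
  obtain ⟨m, hm⟩ := Infinite.exists_notMem_finset I
  have hfn : ∀ n : ℕ, ∃ f ∈ F k, f m = n := by
    intro n
    have hg : Function.update f0 m n ∈ closure (F k) := by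
      apply interior_subset
      apply hIu
      intro i hi
      have : i ≠ m := fun e => hm (e ▸ hi)
      rw [Function.update_of_ne this]
      exact (hu i hi).2
    have hop : IsOpen {f : ℕ → ℕ | f m = n} := by
      have h1 : IsOpen ({n} : Set ℕ) := isOpen_discrete _
      have h2 : Continuous (fun f : ℕ → ℕ => f m) := continuous_apply m
      exact h1.preimage h2
    obtain ⟨f, hf1, hf2⟩ := mem_closure_iff.1 hg _ hop (by simp)
    exact ⟨f, hf2, hf1⟩
  choose f hfF hfm using hfn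
  -- ultrafilter limit
  let U : Ultrafilter ℕ := hyperfilter ℕ
  have hU : (U : Filter ℕ) ≤ atTop := by
    rw [← Nat.cofinite_eq_atTop]; exact hyperfilter_le_cofinite
  obtain ⟨ζ, hζ⟩ : ∃ ζ : B → Bool, Tendsto (fun n => w (f n)) U (𝓝 ζ) := by
    obtain ⟨ζ, -, hζ⟩ := isCompact_univ.ultrafilter_le_nhds (U.map (fun n => w (f n))) (by simp)
    exact ⟨ζ, hζ⟩
  obtain ⟨l, hl0, hlH⟩ : ∃ l : ℤ_[p], l ≠ 0 ∧ l • ind p ζ ∈ H := by
    by_cases hz : ind p ζ = 0
    · exact ⟨1, one_ne_zero, by simp [hz, H.zero_mem]⟩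
    · obtain ⟨l, h1, h2⟩ := hess _ hz
      exact ⟨l, fun e => h2 (by simp [e]), h1⟩
  set c : ℤ_[p] := l * (p:ℤ_[p])^k with hc
  have hc0 : c ≠ 0 := mul_ne_zero hl0 (pow_ne_zero _ (by exact_mod_cast (Fact.out : p.Prime).ne_zero))
  have hcH : c • ind p ζ ∈ H := by
    have : c • ind p ζ = (p^k : ℕ) • (l • ind p ζ) := by
      rw [hc, mul_comm, mul_smul, ← Nat.cast_smul_eq_nsmul ℤ_[p]]
      push_cast; rfl
    rw [this]; exact H.nsmul_mem hlH _
  have hμ : ∀ n : ℕ, ∃ μ : ℤ_[p], μ • ind p (w (f n)) ∈ H ∧ ‖μ - c‖ < 1 / ((n:ℝ) + 1) :=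
    fun n => approx2 p H _ k (hfF n) l _ (by positivity)
  choose μ hμH hμc using hμ
  have hμt : Tendsto μ atTop (𝓝 c) := by
    rw [tendsto_iff_norm_sub_tendsto_zero]
    exact squeeze_zero (fun n => norm_nonneg _) (fun n => (hμc n).le)
      tendsto_one_div_add_atTop_nhds_zero_nat
  have hcl : MapClusterPt (c • ind p ζ) atTop (fun n => μ n • ind p (w (f n))) := by
    have h1 : Tendsto (fun n => μ n • ind p (w (f n))) U (𝓝 (c • ind p ζ)) := by
      rw [tendsto_pi_nhds]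
      intro b
      simp only [Pi.smul_apply, smul_eq_mul]
      refine (hμt.mono_left hU).mul ?_
      have hb : Tendsto (fun n => w (f n) b) U (𝓝 (ζ b)) := (tendsto_pi_nhds.1 hζ) b
      have : ∀ᶠ n in (U : Filter ℕ), w (f n) b = ζ b :=
        hb (isOpen_discrete ({ζ b} : Set Bool) |>.mem_nhds rfl)
      refine tendsto_const_nhds.congr' ?_
      filter_upwards [this] with n hn
      simp [ind, hn]
    exact h1.mapClusterPt.mono hU
  obtain ⟨φ, hφ, a, ha⟩ := hseq _ _ hμH hcH hcl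
  have hev : ∀ b, ∃ v : Bool, ∀ᶠ n in atTop, w (f (φ n)) b = v := by
    intro b
    have hab : Tendsto (fun n => μ (φ n) * ind p (w (f (φ n))) b) atTop (𝓝 (a b)) :=
      (tendsto_pi_nhds.1 ha) b
    have hμφ : Tendsto (fun n => μ (φ n)) atTop (𝓝 c) := hμt.comp hφ.tendsto_atTop
    by_cases h1 : ∃ᶠ n in atTop, w (f (φ n)) b = true
    · refine ⟨true, ?_⟩
      by_contra hnot
      have h2 : ∃ᶠ n in atTop, w (f (φ n)) b = false := by
        rw [Filter.not_eventually] at hnot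
        exact hnot.mono (fun n hn => by simpa using hn)
      have e1 : a b = c := by
        obtain ⟨ψ, hψ, hψ2⟩ := Filter.extraction_of_frequently_atTop h1
        refine tendsto_nhds_unique (hab.comp hψ.tendsto_atTop) ?_
        refine (hμφ.comp hψ.tendsto_atTop).congr ?_
        intro n
        simp [ind, hψ2 n]
      have e2 : a b = 0 := by
        obtain ⟨ψ, hψ, hψ2⟩ := Filter.extraction_of_frequently_atTop h2
        refine tendsto_nhds_unique (hab.comp hψ.tendsto_atTop) ?_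
        refine tendsto_const_nhds.congr ?_
        intro n
        simp [ind, hψ2 n]
      exact hc0 (e1.symm.trans e2)
    · refine ⟨false, ?_⟩
      rw [Filter.not_frequently] at h1
      exact h1.mono (fun n hn => by simpa using hn)
  choose v hv using hev
  refine ⟨φ, hφ, fun b' => v (e.symm (m, b')), ?_⟩
  rw [tendsto_pi_nhds]
  intro b'
  refine tendsto_const_nhds.congr' ?_
  filter_upwards [hv (e.symm (m, b'))] with n hn
  rw [← hn]
  simp [w, hfm]

end padic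

/-- The case of exponent p. -/
theorem core' (p : ℕ) [Fact p.Prime] {B : Type} (H : AddSubgroup (B → ZMod p))
    (hess : ∀ x : B → ZMod p, x ≠ 0 → ∃ l : ZMod p, l • x ∈ H ∧ l • x ≠ 0)
    [TopologicalSpace (ZMod p)] [DiscreteTopology (ZMod p)]
    (hseq : ∀ (x : ℕ → B → ZMod p) (c : B → ZMod p), (∀ n, x n ∈ H) → c ∈ H →
      MapClusterPt c atTop x → ∃ φ : ℕ → ℕ, StrictMono φ ∧ ∃ a, Tendsto (x ∘ φ) atTop (𝓝 a)) :
    SC B := by
  have hall : ∀ x, x ∈ H := by
    intro x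
    by_cases hx : x = 0
    · rw [hx]; exact H.zero_mem
    obtain ⟨l, h1, h2⟩ := hess x hx
    have hl : l ≠ 0 := fun e => h2 (by simp [e])
    have : x = ((l⁻¹).val) • (l • x) := by
      rw [← Nat.cast_smul_eq_nsmul (ZMod p), smul_smul]
      simp [hl]
    rw [this]
    exact H.nsmul_mem h1 _
  intro y
  let x : ℕ → B → ZMod p := fun n b => if y n b then 1 else 0
  obtain ⟨c, -, hc⟩ := isCompact_univ.exists_mapClusterPt (f := atTop) (u := x) (by simp)
  obtain ⟨φ, hφ, a, ha⟩ := hseq x c (fun n => hall _) (hall c) hc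
  refine ⟨φ, hφ, fun b => decide (a b = 1), ?_⟩
  rw [tendsto_pi_nhds] at ha ⊢
  intro b
  have : ∀ᶠ n in atTop, x (φ n) b = a b :=
    (ha b) (isOpen_discrete ({a b} : Set (ZMod p)) |>.mem_nhds rfl)
  refine tendsto_const_nhds.congr' ?_
  filter_upwards [this] with n hn
  simp only [Function.comp]
  rw [← hn]
  cases h : y (φ n) b <;> simp [x, h]

end H162R3.PR
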