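import Mathlib

set_option autoImplicit false

namespace H162R3.PR

open Set

/-- Divisibility as a proposition. -/
def Dv (Q : Type) [AddCommGroup Q] : Prop := ∀ n : ℤ, n ≠ 0 → ∀ q : Q, ∃ q', n • q' = q

theorem ext_div {X Y Q : Type} [AddCommGroup X] [AddCommGroup Q] [AddCommGroup Y] (hdiv : Dv Q)
    (f : Y →+ X) (hf : Function.Injective f) (g : Y →+ Q) : ∃ h : X →+ Q, ∀ s, h (f s) = g s := by
  classical
  let _ : DivisibleBy Q ℤ :=
    { div := fun q n => if hn : n ≠ 0 then (hdiv n hn q).choose else 0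
      div_zero := fun q => by simp
      div_cancel := fun {n} q hn => by
        simp only [dif_pos hn]
        exact (hdiv n hn q).choose_spec }
  obtain ⟨h, hh⟩ := (Module.Baer.of_divisible Q).extension_property_addMonoidHom f hf g
  exact ⟨h, fun s => DFunLike.congr_fun hh s⟩

theorem Dv.surj {P Q : Type} [AddCommGroup P] [AddCommGroup Q] (hP : Dv P) (f : P →+ Q)
    (hf : Function.Surjective f) : Dv Q := by
  intro n hn q
  obtain ⟨a, rfl⟩ := hf q
  obtain ⟨b, rfl⟩ := hP n hn a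
  exact ⟨f b, by simp⟩

theorem Dv.finsupp {P B : Type} [AddCommGroup P] (hP : Dv P) : Dv (B →₀ P) := by
  intro n hn q
  induction q using Finsupp.induction_linear with
  | zero => exact ⟨0, by simp⟩
  | add f g hf hg =>
    obtain ⟨a, ha⟩ := hf
    obtain ⟨b, hb⟩ := hg
    exact ⟨a + b, by rw [smul_add, ha, hb]⟩
  | single b a =>
    obtain ⟨c, hc⟩ := hP n hn a
    exact ⟨Finsupp.single b c, by rw [Finsupp.smul_single, hc]⟩

theorem Dv.circle : Dv UnitAddCircle := by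
  intro n hn q
  exact ⟨DivisibleBy.div q n, DivisibleBy.div_cancel _ hn⟩

section pruefer

variable (p : ℕ) [Fact p.Prime]

/-- The submodule ℤ_p of ℚ_p. -/
noncomputable abbrev Zsub : Submodule ℤ_[p] ℚ_[p] := LinearMap.range (Algebra.linearMap ℤ_[p] ℚ_[p])

/-- The Prüfer group ℚ_p/ℤ_p. -/
abbrev Pr : Type := ℚ_[p] ⧸ Zsub p

theorem mem_Zsub (x : ℚ_[p]) : x ∈ Zsub p ↔ ‖x‖ ≤ 1 := by
  constructor
  · rintro ⟨y, rfl⟩
    exact y.2
  · intro h
    exact ⟨⟨x, h⟩, rfl⟩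

/-- the class of 1/p -/
noncomputable def a1 : Pr p := Submodule.Quotient.mk ((p:ℚ_[p])⁻¹)

theorem mk_surj (a : Pr p) : ∃ x : ℚ_[p], Submodule.Quotient.mk x = a :=
  Submodule.Quotient.mk_surjective _ a

theorem Pr_dv : Dv (Pr p) := by
  intro n hn q
  obtain ⟨x, rfl⟩ := mk_surj p q
  refine ⟨Submodule.Quotient.mk (x / n), ?_⟩
  rw [← Submodule.Quotient.mk_smul]
  congr 1
  have : (n : ℚ_[p]) ≠ 0 := by exact_mod_cast hn
  rw [zsmul_eq_mul]
  field_simp

theorem p_ne : (p:ℚ_[p]) ≠ 0 := by exact_mod_cast (Fact.out : p.Prime).ne_zero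

theorem Pr_torsion (a : Pr p) : ∃ n : ℕ, (p^n : ℕ) • a = 0 := by
  obtain ⟨x, rfl⟩ := mk_surj p a
  have hp1 : (1:ℝ) < p := by exact_mod_cast (Fact.out : p.Prime).one_lt
  obtain ⟨n, hn⟩ := pow_unbounded_of_one_lt ‖x‖ hp1
  refine ⟨n, ?_⟩
  rw [← Submodule.Quotient.mk_smul, Submodule.Quotient.mk_eq_zero, mem_Zsub, nsmul_eq_mul, norm_mul]
  have : ‖((p^n : ℕ) : ℚ_[p])‖ = ((p:ℝ)^n)⁻¹ := by
    push_cast
    rw [norm_pow, Padic.norm_p, inv_pow]
  rw [this]
  have hpos : (0:ℝ) < (p:ℝ)^n := by positivity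
  rw [inv_mul_le_iff₀ hpos, mul_one]
  exact hn.le

theorem a1_ne : a1 p ≠ 0 := by
  intro h
  rw [a1, Submodule.Quotient.mk_eq_zero, mem_Zsub, norm_inv, Padic.norm_p, inv_inv] at h
  have hp1 : (1:ℝ) < p := by exact_mod_cast (Fact.out : p.Prime).one_lt
  linarith

theorem p_a1 : p • a1 p = 0 := by
  rw [a1, ← Submodule.Quotient.mk_smul, Submodule.Quotient.mk_eq_zero, mem_Zsub, nsmul_eq_mul,
    mul_inv_cancel₀ (p_ne p)]
  simp

theorem socle (a : Pr p) (ha : p • a = 0) : ∃ m : ℕ, a = m • a1 p := by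
  obtain ⟨x, rfl⟩ := mk_surj p a
  rw [← Submodule.Quotient.mk_smul, Submodule.Quotient.mk_eq_zero, mem_Zsub, nsmul_eq_mul] at ha
  let y : ℤ_[p] := ⟨(p:ℚ_[p]) * x, ha⟩
  obtain ⟨m, hm, hy⟩ := y.exists_mem_range
  refine ⟨m, ?_⟩
  rw [a1, ← Submodule.Quotient.mk_smul, Submodule.Quotient.eq, mem_Zsub, nsmul_eq_mul]
  rw [PadicInt.maximalIdeal_eq_span_p, Ideal.mem_span_singleton] at hy
  obtain ⟨z, hz⟩ := hy
  have h1 : (p:ℚ_[p]) * x - m = p * (z : ℚ_[p]) := by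
    have := congrArg (fun t : ℤ_[p] => (t : ℚ_[p])) hz
    simp only [PadicInt.coe_sub, PadicInt.coe_mul, PadicInt.coe_natCast] at this
    exact this
  have h2 : x - (m:ℚ_[p]) * (p:ℚ_[p])⁻¹ = z := by
    have := p_ne p
    field_simp
    linear_combination h1
  rw [h2]; exact z.2

theorem exists_smul_ne (l : ℤ_[p]) (hl : l ≠ 0) : ∃ a : Pr p, l • a ≠ 0 := by
  have hl' : (l : ℚ_[p]) ≠ 0 := fun h => hl (Subtype.ext h)
  refine ⟨Submodule.Quotient.mk ((l:ℚ_[p])⁻¹ * (p:ℚ_[p])⁻¹), ?_⟩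
  rw [← Submodule.Quotient.mk_smul]
  have : l • ((l:ℚ_[p])⁻¹ * (p:ℚ_[p])⁻¹) = (p:ℚ_[p])⁻¹ := by
    rw [Algebra.smul_def]
    change (l:ℚ_[p]) * _ = _
    field_simp
  rw [this]
  exact a1_ne p

/-- hom from ZMod p -/
noncomputable def fz : ZMod p →+ Pr p :=
  ZMod.lift p ⟨(zmultiplesHom (Pr p)) (a1 p), by simpa using p_a1 p⟩

theorem fz_nat (m : ℕ) : fz p (m : ZMod p) = m • a1 p := by
  have : ((m : ℤ) : ZMod p) = (m : ZMod p) := by simp
  rw [← this, fz, ZMod.lift_coe]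
  simp

theorem fz_one : fz p 1 = a1 p := by
  have := fz_nat p 1
  simpa using this

theorem fz_inj : Function.Injective (fz p) := by
  rw [injective_iff_map_eq_zero]
  intro a ha
  by_contra hne
  have : a1 p = (a⁻¹).val • fz p a := by
    rw [← map_nsmul, nsmul_eq_mul]
    simp [hne, fz_one]
  rw [ha, smul_zero] at this
  exact a1_ne p this

theorem exists_iota : ∃ ι : Pr p →+ UnitAddCircle, Function.Injective ι := by
  have : NeZero p := ⟨(Fact.out : p.Prime).ne_zero⟩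
  obtain ⟨h, hh⟩ := ext_div Dv.circle (fz p) (fz_inj p) (ZMod.toAddCircle (N := p))
  refine ⟨h, ?_⟩
  rw [injective_iff_map_eq_zero]
  intro a ha
  by_contra hne
  classical
  have hex := Pr_torsion p a
  set n := Nat.find hex with hn
  have hn1 : (p^n : ℕ) • a = 0 := Nat.find_spec hex
  have hn0 : n ≠ 0 := by
    intro h0
    rw [h0] at hn1
    simp at hn1
    exact hne hn1
  obtain ⟨k, hk⟩ := Nat.exists_eq_succ_of_ne_zero hn0
  have hk1 : (p^k : ℕ) • a ≠ 0 := Nat.find_min hex (by omega)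
  have hk2 : p • ((p^k : ℕ) • a) = 0 := by
    rw [← mul_smul, ← pow_succ', ← Nat.succ_eq_add_one, ← hk]; exact hn1
  obtain ⟨m, hm⟩ := socle p _ hk2
  have h1 : h ((p^k : ℕ) • a) = 0 := by rw [map_nsmul, ha, smul_zero]
  rw [hm, ← fz_nat, hh] at h1
  have h2 : (m : ZMod p) = 0 := ZMod.toAddCircle_injective p (by rw [h1, map_zero])
  apply hk1
  rw [hm, ← fz_nat, h2, map_zero]

end pruefer

end H162R3.PR
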