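import Mathlib
import Pool.Agent.H162R3.PR2

set_option autoImplicit false

namespace H162R3.PR

open Set

theorem countable_fiber {X Y : Type} [AddCommGroup X] [AddCommGroup Y] (f : X →+ Y)
    (hk : (f.ker : Set X).Countable) (hr : (range f).Countable) : Countable X := by
  have h1 : ∀ y ∈ range f, (f ⁻¹' {y}).Countable := by
    rintro _ ⟨x0, rfl⟩
    have : f ⁻¹' {f x0} ⊆ (fun k => k + x0) '' (f.ker : Set X) := by
      intro x hx
      refine ⟨x - x0, ?_, by simp⟩
      simp only [mem_preimage, mem_singleton_iff] at hx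
      simp [AddMonoidHom.mem_ker, hx]
    exact (hk.image _).mono this
  have h2 : (univ : Set X) ⊆ ⋃ y ∈ range f, f ⁻¹' {y} := by
    intro x _
    simp
  have := (hr.biUnion h1).mono h2
  exact countable_univ_iff.1 this

/-- the n-torsion subgroup -/
def Tor (X : Type) [AddCommGroup X] (n : ℕ) : AddSubgroup X where
  carrier := {x | n • x = 0}
  zero_mem' := by simp
  add_mem' := by
    intro a b ha hb
    simp only [mem_ofPred_eq] at *
    rw [smul_add, ha, hb, add_zero]
  neg_mem' := by
    intro a ha
    simp only [mem_ofPred_eq] at *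
    rw [smul_neg, ha, neg_zero]

theorem mem_Tor {X : Type} [AddCommGroup X] {n : ℕ} {x : X} : x ∈ Tor X n ↔ n • x = 0 := Iff.rfl

theorem exists_prime_tor {X : Type} [AddCommGroup X] (n : ℕ) (hn : n ≠ 0)
    (h : ¬ Countable (Tor X n)) : ∃ p : ℕ, p.Prime ∧ ¬ Countable (Tor X p) := by
  induction n using Nat.strong_induction_on with
  | _ n ih =>
    by_cases h1 : n = 1
    · exfalso
      apply h
      subst h1
      have : ∀ x : Tor X 1, x = 0 := by
        rintro ⟨x, hx⟩
        have : x = 0 := by simpa [mem_Tor] using hx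
        exact Subtype.ext this
      have : Subsingleton (Tor X 1) := ⟨fun a b => by rw [this a, this b]⟩
      infer_instance
    · obtain ⟨m, hm⟩ := Nat.minFac_dvd n
      have hp : (Nat.minFac n).Prime := Nat.minFac_prime h1
      set p := Nat.minFac n with hpdef
      by_cases hc : Countable (Tor X p)
      swap
      · exact ⟨p, hp, hc⟩
      have hm0 : m ≠ 0 := by
        rintro rfl
        simp at hm
        exact hn hm
      have hmn : m < n := by
        rw [hm]
        have := hp.two_le
        nlinarith [Nat.pos_of_ne_zero hm0]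
      apply ih m hmn hm0
      intro hcm
      apply h
      -- map Tor n → X, x ↦ m • x
      let f : Tor X n →+ X := (DistribSMul.toAddMonoidHom X m).comp (Tor X n).subtype
      refine countable_fiber f ?_ ?_
      · have : ((f.ker : Set (Tor X n))).MapsTo Subtype.val (Tor X m : Set X) := by
          intro x hx
          exact hx
        have h2 : (Subtype.val '' (f.ker : Set (Tor X n))).Countable := by
          refine Set.Countable.mono (image_subset_iff.2 this) ?_
          exact (Set.countable_coe_iff).1 hcm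
        exact Set.countable_of_injective_of_countable_image Subtype.val_injective.injOn h2
      · have : range f ⊆ (Tor X p : Set X) := by
          rintro _ ⟨x, rfl⟩
          have hx : n • (x : X) = 0 := x.2
          change p • (m • (x:X)) = 0
          rw [← mul_smul, ← hm]; exact hx
        exact ((Set.countable_coe_iff).1 hc).mono this

theorem vs_repr (p : ℕ) [Fact p.Prime] (V : Type) [AddCommGroup V] (h : ∀ x : V, p • x = 0)
    (hV : ¬ Countable V) : ∃ B : Type, ¬ Countable B ∧ Nonempty (V ≃+ (B →₀ ZMod p)) := by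
  let _ : Module (ZMod p) V := AddCommGroup.zmodModule h
  have bas := Module.Basis.ofVectorSpace (ZMod p) V
  refine ⟨_, ?_, ⟨bas.repr.toAddEquiv⟩⟩
  intro hcB
  apply hV
  exact bas.repr.toEquiv.countable_iff.2 inferInstance

theorem exists_phi (X : Type) [AddCommGroup X] (hX : ¬ Countable X) :
    ∃ (p : ℕ) (_ : Fact p.Prime) (B : Type) (_ : ¬ Countable B) (φ : X →+ (B →₀ Pr p)),
      ∀ b, ∃ x, φ x = Finsupp.single b (a1 p) := by
  classical
  obtain ⟨S, hS, hmax⟩ := exists_maximal_linearIndepOn ℤ (id : X → X)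
  by_cases hSc : Countable S
  · -- some torsion part is uncountable
    have : ∃ n : ℕ, n ≠ 0 ∧ ¬ Countable (Tor X n) := by
      by_contra hcon
      push Not at hcon
      apply hX
      let Sp : Submodule ℤ X := Submodule.span ℤ (id '' S)
      have hSp : Countable Sp := by
        have hr := Finsupp.range_linearCombination ℤ (v := fun s : S => (s : X))
        have hSp' : Sp = LinearMap.range (Finsupp.linearCombination ℤ (fun s : S => (s : X))) := by
          rw [hr]; simp [Sp]
        rw [hSp']
        have : Countable (S →₀ ℤ) := inferInstance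
        exact (LinearMap.surjective_rangeRestrict
          (Finsupp.linearCombination ℤ (fun s : S => (s : X)))).countable
      have hcov : (univ : Set X) ⊆ ⋃ n : {n : ℕ // n ≠ 0}, ⋃ s : Sp, {x | (n:ℕ) • x = (s : X)} := by
        intro x _
        have : ∃ a : ℤ, a ≠ 0 ∧ a • x ∈ Sp := by
          by_cases hx : x ∈ S
          · have hx' : x ∈ id '' S := ⟨x, hx, rfl⟩
            exact ⟨1, one_ne_zero, by rw [one_smul]; exact Submodule.subset_span hx'⟩
          · exact hmax x hx
        obtain ⟨a, ha, hax⟩ := this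
        have hn : a.natAbs • x ∈ Sp := by
          rcases Int.natAbs_eq a with h | h
          · rw [← natCast_zsmul, ← h]; exact hax
          · have : a.natAbs • x = - (a • x) := by
              rw [← natCast_zsmul, ← neg_smul]
              congr 1
              omega
            rw [this]; exact Sp.neg_mem hax
        simp only [mem_iUnion]
        exact ⟨⟨a.natAbs, by simpa using ha⟩, (⟨_, hn⟩ : Sp), rfl⟩
      refine countable_univ_iff.1 (Set.Countable.mono hcov ?_)
      refine countable_iUnion fun n => countable_iUnion fun s => ?_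
      by_cases hne : ({x | (n:ℕ) • x = (s : X)} : Set X).Nonempty
      · obtain ⟨x0, hx0⟩ := hne
        have : {x | (n:ℕ) • x = (s : X)} ⊆ (fun k => k + x0) '' (Tor X n : Set X) := by
          intro x hx
          refine ⟨x - x0, ?_, by simp⟩
          simp only [mem_ofPred_eq] at hx hx0
          change (n:ℕ) • (x - x0) = 0
          rw [smul_sub, hx, hx0, sub_self]
        have hc := hcon n.1 n.2
        exact (((Set.countable_coe_iff).1 hc).image _).mono this
      · rw [not_nonempty_iff_eq_empty.1 hne]; exact countable_empty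
    obtain ⟨n, hn0, hn⟩ := this
    obtain ⟨p, hp, hpc⟩ := exists_prime_tor n hn0 hn
    have hpf : Fact p.Prime := ⟨hp⟩
    obtain ⟨B, hB, ⟨r⟩⟩ := vs_repr p (Tor X p) (fun x => Subtype.ext x.2) hpc
    refine ⟨p, hpf, B, hB, ?_⟩
    let g : Tor X p →+ (B →₀ Pr p) :=
      (Finsupp.mapRange.addMonoidHom (fz p)).comp r.toAddMonoidHom
    obtain ⟨φ, hφ⟩ := ext_div (Pr_dv p).finsupp (Tor X p).subtype Subtype.val_injective g
    refine ⟨φ, fun b => ⟨r.symm (Finsupp.single b 1), ?_⟩⟩
    have := hφ (r.symm (Finsupp.single b 1))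
    simp only [AddSubgroup.subtype_apply] at this
    rw [this]
    simp [g, fz_one]
  · -- uncountable independent set
    have hpf : Fact (Nat.Prime 2) := ⟨Nat.prime_two⟩
    have hli : LinearIndependent ℤ (fun s : S => (s : X)) := hS
    let bas := Module.Basis.span hli
    refine ⟨2, hpf, S, hSc, ?_⟩
    let g : Submodule.span ℤ (range fun s : S => (s : X)) →+ (S →₀ Pr 2) :=
      (bas.constr ℤ (fun s => Finsupp.single s (a1 2))).toAddMonoidHom
    obtain ⟨φ, hφ⟩ := ext_div (Pr_dv 2).finsupp
      (Submodule.span ℤ (range fun s : S => (s : X))).subtype.toAddMonoidHom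
      Subtype.val_injective g
    refine ⟨φ, fun b => ⟨b, ?_⟩⟩
    have := hφ (bas b)
    have h2 : ((Submodule.span ℤ (range fun s : S => (s : X))).subtype.toAddMonoidHom (bas b)) = (b : X) := by
      simp [bas, Module.Basis.span_apply]
    rw [h2] at this
    rw [this]
    simp [g]

/-- The range of multiplication by p. -/
def mulp (X : Type) [AddCommGroup X] (p : ℕ) : AddSubgroup X :=
  (DistribSMul.toAddMonoidHom X p).range

theorem mulp_case (X : Type) [AddCommGroup X] (p : ℕ) [Fact p.Prime]
    (h : ¬ Countable (X ⧸ mulp X p)) :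
    ∃ (B : Type) (_ : ¬ Countable B) (φ : X →+ (B →₀ ZMod p)), Function.Surjective φ := by
  obtain ⟨B, hB, ⟨r⟩⟩ := vs_repr p (X ⧸ mulp X p) (by
    intro x
    obtain ⟨y, rfl⟩ := QuotientAddGroup.mk_surjective x
    rw [← QuotientAddGroup.mk_nsmul, QuotientAddGroup.eq_zero_iff]
    exact ⟨y, rfl⟩) h
  refine ⟨B, hB, r.toAddMonoidHom.comp (QuotientAddGroup.mk' (mulp X p)), ?_⟩
  exact r.surjective.comp (QuotientAddGroup.mk'_surjective _)

theorem divisible_case (X : Type) [AddCommGroup X] (p : ℕ) [Fact p.Prime]
    (h : Countable (X ⧸ mulp X p)) (B : Type) (hB : ¬ Countable B) (φ : X →+ (B →₀ Pr p))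
    (hφ : ∀ b, ∃ x, φ x = Finsupp.single b (a1 p)) :
    ∃ (B' : Type) (_ : ¬ Countable B') (ψ : X →+ (B' →₀ Pr p)), Function.Surjective ψ := by
  classical
  let Y : Set X := range (fun q : X ⧸ mulp X p => q.out)
  have hY : Y.Countable := countable_range _
  have hdec : ∀ x : X, ∃ y ∈ Y, ∃ z, x = y + p • z := by
    intro x
    refine ⟨_, ⟨(QuotientAddGroup.mk x : X ⧸ mulp X p), rfl⟩, ?_⟩
    have h1 : (QuotientAddGroup.mk (QuotientAddGroup.mk x : X ⧸ mulp X p).out : X ⧸ mulp X p)
        = QuotientAddGroup.mk x := Quotient.out_eq' _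
    rw [QuotientAddGroup.eq] at h1
    obtain ⟨z, hz⟩ := h1
    refine ⟨z, ?_⟩
    have hz' : p • z = -(QuotientAddGroup.mk x : X ⧸ mulp X p).out + x := hz
    rw [hz']; abel
  let B0 : Set B := ⋃ y ∈ Y, ((φ y).support : Set B)
  have hB0 : B0.Countable := hY.biUnion (fun y _ => (φ y).support.countable_toSet)
  have hB0c : ¬ Countable {b // b ∉ B0} := by
    intro hc
    apply hB
    have h1 : ({b | b ∉ B0} : Set B).Countable := (Set.countable_coe_iff).1 hc
    refine countable_univ_iff.1 ((hB0.union h1).mono ?_)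
    intro b _
    by_cases hb : b ∈ B0
    · exact Or.inl hb
    · exact Or.inr hb
  let ψ : X →+ ({b // b ∉ B0} →₀ Pr p) :=
    (Finsupp.subtypeDomainAddMonoidHom (p := fun b => b ∉ B0)).comp φ
  have hψ0 : ∀ y ∈ Y, ψ y = 0 := by
    intro y hy
    ext ⟨b, hb⟩
    change φ y b = 0
    by_contra hne
    apply hb
    exact mem_biUnion hy (Finsupp.mem_support_iff.2 hne)
  have hdiv : ∀ x : X, ∃ z : X, ψ x = p • ψ z := by
    intro x
    obtain ⟨y, hy, z, rfl⟩ := hdec x
    refine ⟨z, ?_⟩
    rw [map_add, hψ0 y hy, zero_add, map_nsmul]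
  have hdivn : ∀ (n : ℕ) (x : X), ∃ z : X, ψ x = (p^n : ℕ) • ψ z := by
    intro n
    induction n with
    | zero => exact fun x => ⟨x, by simp⟩
    | succ n ih =>
      intro x
      obtain ⟨z, hz⟩ := ih x
      obtain ⟨z', hz'⟩ := hdiv z
      exact ⟨z', by rw [hz, hz', ← mul_smul, pow_succ]⟩
  -- socle
  have hsing : ∀ (b : {b // b ∉ B0}) (a : Pr p), p • a = 0 → ∃ x, ψ x = Finsupp.single b a := by
    intro b a ha
    obtain ⟨m, rfl⟩ := socle p a ha
    obtain ⟨x, hx⟩ := hφ b
    refine ⟨m • x, ?_⟩
    rw [map_nsmul]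
    have : ψ x = Finsupp.single b (a1 p) := by
      ext ⟨c, hc⟩
      change φ x c = _
      rw [hx]
      rw [Finsupp.single_apply, Finsupp.single_apply]
      simp [Subtype.ext_iff]
    rw [this, Finsupp.smul_single]
  have hfull : ∀ (n : ℕ) (b : {b // b ∉ B0}) (a : Pr p), (p^n : ℕ) • a = 0 →
      ∃ x, ψ x = Finsupp.single b a := by
    intro n
    induction n with
    | zero =>
      intro b a ha
      refine ⟨0, ?_⟩
      have : a = 0 := by simpa using ha
      rw [this]; simp
    | succ n ih =>
      intro b a ha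
      obtain ⟨x, hx⟩ := hsing b ((p^n : ℕ) • a) (by rw [← mul_smul, ← pow_succ']; exact ha)
      obtain ⟨z, hz⟩ := hdivn n x
      -- z has p^n ψ z = single b (p^n a)
      have hz' : (p^n : ℕ) • ψ z = Finsupp.single b ((p^n : ℕ) • a) := by rw [← hz, hx]
      -- d := single b a - ψ z killed by p^n
      have hd : ∀ c, (p^n : ℕ) • ((Finsupp.single b a - ψ z) c) = 0 := by
        intro c
        have : (p^n : ℕ) • (Finsupp.single b a - ψ z) = 0 := by
          rw [smul_sub, hz', Finsupp.smul_single, sub_self]
        have h2 := DFunLike.congr_fun this c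
        simpa using h2
      have hgen : ∀ d : ({b // b ∉ B0} →₀ Pr p), (∀ c, (p^n : ℕ) • d c = 0) → ∃ x, ψ x = d := by
        intro d
        induction d using Finsupp.induction with
        | zero => exact fun _ => ⟨0, by simp⟩
        | single_add c v f hc hv ihf =>
          intro hall
          have h1 : (p^n : ℕ) • v = 0 := by
            have := hall c
            rw [Finsupp.add_apply, Finsupp.single_eq_same, Finsupp.notMem_support_iff.1 hc,
              add_zero] at this
            exact this
          have h2 : ∀ e, (p^n : ℕ) • f e = 0 := by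
            intro e
            by_cases he : e = c
            · rw [he, Finsupp.notMem_support_iff.1 hc, smul_zero]
            · have := hall e
              rw [Finsupp.add_apply, Finsupp.single_apply, if_neg (fun h => he h.symm),
                zero_add] at this
              exact this
          obtain ⟨x1, hx1⟩ := ih c v h1
          obtain ⟨x2, hx2⟩ := ihf h2
          exact ⟨x1 + x2, by rw [map_add, hx1, hx2]⟩
      obtain ⟨x', hx'⟩ := hgen _ hd
      refine ⟨x' + z, ?_⟩
      rw [map_add, hx']; abel
  refine ⟨{b // b ∉ B0}, hB0c, ψ, ?_⟩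
  intro d
  induction d using Finsupp.induction_linear with
  | zero => exact ⟨0, by simp⟩
  | add f g hf hg =>
    obtain ⟨a, ha⟩ := hf
    obtain ⟨b, hb⟩ := hg
    exact ⟨a + b, by rw [map_add, ha, hb]⟩
  | single b a =>
    obtain ⟨n, hn⟩ := Pr_torsion p a
    exact hfull n b a hn

theorem algebra_main (X : Type) [AddCommGroup X] (hX : ¬ Countable X) :
    ∃ (p : ℕ) (_ : Fact p.Prime) (B : Type) (_ : ¬ Countable B),
      (∃ φ : X →+ (B →₀ ZMod p), Function.Surjective φ) ∨
      (∃ φ : X →+ (B →₀ Pr p), Function.Surjective φ) := by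
  obtain ⟨p, hp, B, hB, φ, hφ⟩ := exists_phi X hX
  by_cases h : Countable (X ⧸ mulp X p)
  · obtain ⟨B', hB', ψ, hψ⟩ := divisible_case X p h B hB φ hφ
    exact ⟨p, hp, B', hB', Or.inr ⟨ψ, hψ⟩⟩
  · obtain ⟨B', hB', ψ, hψ⟩ := mulp_case X p h
    exact ⟨p, hp, B', hB', Or.inl ⟨ψ, hψ⟩⟩

end H162R3.PR
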