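import Mathlib
import Pool.Agent.H162R3.PR1
import Pool.Agent.H162R3.PR3

set_option autoImplicit false

namespace H162R3.PR

open Filter Topology Set

/-- Minimality of a Hausdorff group topology. -/
def MinimalGrp (G : Type) [AddCommGroup G] [τ : TopologicalSpace G] : Prop :=
  ∀ t : TopologicalSpace G, τ ≤ t → @IsTopologicalAddGroup G t _ → @T2Space G t → t = τ

theorem essential {G Z : Type} [AddCommGroup G] [τ : TopologicalSpace G]
    [AddCommGroup Z] [TopologicalSpace Z] [IsTopologicalAddGroup Z] [T2Space Z]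
    (hmin : MinimalGrp G) (j : G →+ Z) (hj : IsEmbedding j)
    (N : AddSubgroup Z) (hN : IsClosed (N : Set Z)) (hNK : (N : Set Z) ⊆ closure (range j))
    (hN0 : ∃ n ∈ N, n ≠ 0) : ∃ g : G, j g ∈ N ∧ j g ≠ 0 := by
  by_contra hcon
  push Not at hcon
  let f : G →+ Z ⧸ N := (QuotientAddGroup.mk' N).comp j
  have hf : Function.Injective f := by
    rw [injective_iff_map_eq_zero]
    intro g hg
    have h1 : j g ∈ N := (QuotientAddGroup.eq_zero_iff (j g)).1 hg
    have h2 := hcon g h1
    exact hj.injective (by rw [h2, map_zero])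
  have : IsClosed (N : Set Z) := hN
  have hT3 : T3Space (Z ⧸ N) := QuotientAddGroup.instT3Space N
  have hfc : Continuous f := (QuotientAddGroup.continuous_mk (N := N)).comp hj.continuous
  have hjc : Tendsto j (@nhds G τ 0) (𝓝 (j 0)) := hj.continuous.tendsto 0
  let t : TopologicalSpace G := TopologicalSpace.induced f inferInstance
  have ht1 : τ ≤ t := continuous_iff_le_induced.1 hfc
  have ht2 : @IsTopologicalAddGroup G t _ := topologicalAddGroup_induced f
  have ht3 : @T2Space G t :=
    @T2Space.of_injective_continuous G (Z ⧸ N) t _ _ f hf continuous_induced_dom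
  have hteq : t = τ := hmin t ht1 ht2 ht3
  obtain ⟨n, hnN, hn0⟩ := hN0
  have hncl : n ∈ closure (range j) := hNK hnN
  have hne : (comap j (𝓝 n)).NeBot :=
    comap_neBot_iff_frequently.2 (mem_closure_iff_frequently.1 hncl)
  have h1 : Tendsto j (comap j (𝓝 n)) (𝓝 n) := tendsto_comap
  have h2 : Tendsto f (comap j (𝓝 n)) (𝓝 (f 0)) := by
    have h3 : Tendsto (fun z : Z => (QuotientAddGroup.mk z : Z ⧸ N)) (𝓝 n)
        (𝓝 (QuotientAddGroup.mk n)) := (QuotientAddGroup.continuous_mk (N := N)).tendsto n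
    have h4 : (QuotientAddGroup.mk n : Z ⧸ N) = f 0 := by
      rw [map_zero]; exact (QuotientAddGroup.eq_zero_iff n).2 hnN
    rw [← h4]
    exact h3.comp h1
  have h5 : comap j (𝓝 n) ≤ @nhds G t 0 := by
    have : @nhds G t 0 = comap f (𝓝 (f 0)) := nhds_induced f 0
    rw [this]
    exact tendsto_iff_comap.1 h2
  rw [hteq] at h5
  have h6 : Tendsto j (comap j (𝓝 n)) (𝓝 (j 0)) := hjc.mono_left h5
  rw [map_zero] at h6
  exact hn0 (tendsto_nhds_unique h1 h6)

theorem transfer {G Z M : Type} [AddCommGroup G] [TopologicalSpace G]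
    [AddCommGroup Z] [TopologicalSpace Z] [IsTopologicalAddGroup Z] [T2Space Z]
    [AddCommGroup M] [TopologicalSpace M] [CompactSpace M] [T2Space M]
    (hmin : MinimalGrp G) (hps : PseudoRadial G) (j : G →+ Z) (hj : IsEmbedding j)
    (h : M →+ Z) (hc : Continuous h) (hi : Function.Injective h)
    (hr : range h ⊆ closure (range j)) :
    ∃ H : AddSubgroup M,
      (∀ N : AddSubgroup M, IsClosed (N : Set M) → (∃ n ∈ N, n ≠ 0) → ∃ x ∈ N, x ∈ H ∧ x ≠ 0) ∧
      (∀ (x : ℕ → M) (c : M), (∀ n, x n ∈ H) → c ∈ H → MapClusterPt c atTop x →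
        ∃ φ : ℕ → ℕ, StrictMono φ ∧ ∃ a, Tendsto (x ∘ φ) atTop (𝓝 a)) := by
  have hemb : IsClosedEmbedding h := hc.isClosedEmbedding hi
  refine ⟨AddSubgroup.comap h j.range, ?_, ?_⟩
  · rintro N hN ⟨n, hn, hn0⟩
    obtain ⟨g, hg1, hg2⟩ := essential hmin j hj (N.map h)
      (by
        rw [AddSubgroup.coe_map]
        exact hemb.isClosedMap _ hN)
      (by
        rw [AddSubgroup.coe_map]
        exact (image_subset_range _ _).trans hr)
      ⟨h n, ⟨n, hn, rfl⟩, fun e => hn0 (hi (by rw [e, map_zero]))⟩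
    obtain ⟨x, hx, hxg⟩ := hg1
    refine ⟨x, hx, ⟨g, hxg.symm⟩, ?_⟩
    rintro rfl
    exact hg2 (by rw [← hxg, map_zero])
  · intro x c hx hcH hcl
    choose g hg using hx
    obtain ⟨g0, hg0⟩ := hcH
    have h1 : MapClusterPt g0 atTop g := by
      have h2 : MapClusterPt (h c) atTop (h ∘ x) := hcl.continuousAt_comp hc.continuousAt
      have h3 : h ∘ x = j ∘ g := by
        funext n; exact (hg n).symm
      rw [h3, ← hg0] at h2
      rw [mapClusterPt_iff_frequently] at h2 ⊢
      intro s hs
      rw [hj.nhds_eq_comap] at hs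
      obtain ⟨u, hu, hus⟩ := hs
      exact (h2 u hu).mono (fun n hn => hus hn)
    have : T2Space G := hj.t2Space
    obtain ⟨φ, hφ, a, ha⟩ := hps.seq g g0 h1
    refine ⟨φ, hφ, ?_⟩
    have h4 : Tendsto (fun n => h (x (φ n))) atTop (𝓝 (j a)) := by
      have := (hj.continuous.tendsto a).comp ha
      refine this.congr ?_
      intro n
      exact hg (φ n)
    have h5 : j a ∈ range h := hemb.isClosed_range.mem_of_tendsto h4
      (Eventually.of_forall fun n => ⟨_, rfl⟩)
    obtain ⟨m, hm⟩ := h5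
    refine ⟨m, ?_⟩
    rw [← hm] at h4
    exact (hemb.isInducing.tendsto_nhds_iff).2 h4

theorem exists_h' {R P X B : Type} [CommRing R] [TopologicalSpace R] [AddCommGroup P]
    [Module R P] (χ : P →+ UnitAddCircle) (c1 : ∀ a : P, Continuous fun l : R => χ (l • a))
    (c2 : ∀ l : R, l ≠ 0 → ∃ a : P, χ (l • a) ≠ 0) [AddCommGroup X]
    (φ : X →+ (B →₀ P)) (hφ : Function.Surjective φ) :
    ∃ h : (B → R) →+ (X → UnitAddCircle), Continuous h ∧ Function.Injective h ∧
      (∀ x a b, h x (a + b) = h x a + h x b) ∧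
      ∀ x ξ, h x ξ = χ ((φ ξ).sum fun b a => x b • a) := by
  classical
  let h : (B → R) →+ (X → UnitAddCircle) :=
    { toFun := fun x ξ => χ ((φ ξ).sum fun b a => x b • a)
      map_zero' := by
        funext ξ
        simp [Finsupp.sum]
      map_add' := by
        intro x y
        funext ξ
        simp only [Pi.add_apply, add_smul, Finsupp.sum, Finset.sum_add_distrib, map_add] }
  refine ⟨h, ?_, ?_, ?_, fun _ _ => rfl⟩
  · refine continuous_pi fun ξ => ?_
    have : (fun x : B → R => h x ξ) = fun x => ∑ b ∈ (φ ξ).support, χ (x b • (φ ξ) b) := by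
      funext x
      change χ ((φ ξ).sum fun b a => x b • a) = _
      rw [Finsupp.sum, map_sum]
    rw [this]
    refine continuous_finsetSum _ fun b _ => ?_
    exact (c1 ((φ ξ) b)).comp (continuous_apply b)
  · rw [injective_iff_map_eq_zero]
    intro x hx
    funext b
    by_contra hb
    obtain ⟨a, ha⟩ := c2 (x b) hb
    obtain ⟨ξ, hξ⟩ := hφ (Finsupp.single b a)
    apply ha
    have : h x ξ = 0 := congrFun hx ξ
    change χ ((φ ξ).sum fun b a => x b • a) = 0 at this
    rw [hξ, Finsupp.sum_single_index (by simp)] at this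
    exact this
  · intro x a b
    change χ ((φ (a+b)).sum fun b a => x b • a) = χ _ + χ _
    rw [map_add, Finsupp.sum_add_index' (by simp) (by intros; rw [smul_add]), map_add]

theorem exists_h {R P X B : Type} [CommRing R] [TopologicalSpace R] [AddCommGroup P]
    [Module R P] (χ : P →+ UnitAddCircle) (c1 : ∀ a : P, Continuous fun l : R => χ (l • a))
    (c2 : ∀ l : R, l ≠ 0 → ∃ a : P, χ (l • a) ≠ 0) [AddCommGroup X]
    (φ : X →+ (B →₀ P)) (hφ : Function.Surjective φ) :
    ∃ h : (B → R) →+ (X → UnitAddCircle), Continuous h ∧ Function.Injective h ∧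
      ∀ x a b, h x (a + b) = h x a + h x b := by
  obtain ⟨h, h1, h2, h3, -⟩ := exists_h' χ c1 c2 φ hφ
  exact ⟨h, h1, h2, h3⟩

theorem SC_of_not_countable {X G : Type} [AddCommGroup X] [AddCommGroup G] [TopologicalSpace G]
    (hmin : MinimalGrp G) (hps : PseudoRadial G) (j : G →+ (X → UnitAddCircle))
    (hj : IsEmbedding j)
    (hd : ∀ f : X → UnitAddCircle, (∀ a b, f (a + b) = f a + f b) → f ∈ closure (range j))
    (hX : ¬ Countable X) : ∃ B : Type, ¬ Countable B ∧ SC B := by
  obtain ⟨p, hp, B, hB, hcase⟩ := algebra_main X hX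
  have hBinf : Infinite B := by
    by_contra hfin
    rw [not_infinite_iff_finite] at hfin
    exact hB inferInstance
  refine ⟨B, hB, ?_⟩
  rcases hcase with ⟨φ, hφ⟩ | ⟨φ, hφ⟩
  · have : NeZero p := ⟨(Fact.out : p.Prime).ne_zero⟩
    obtain ⟨h, hc, hi, ha⟩ := exists_h (R := ZMod p) (P := ZMod p) (X := X) (B := B)
      (ZMod.toAddCircle (N := p)) (fun a => continuous_of_discreteTopology)
      (fun l hl => ⟨1, by simpa using hl⟩) φ hφ
    obtain ⟨H, hess, hseq⟩ := transfer hmin hps j hj h hc hi (by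
      rintro _ ⟨x, rfl⟩
      exact hd _ (ha x))
    refine core' p H ?_ hseq
    intro x hx
    obtain ⟨y, ⟨l, hl⟩, hy1, hy2⟩ := hess ((LinearMap.toSpanSingleton (ZMod p) (B → ZMod p) x).toAddMonoidHom.range)
      (by
        have : IsCompact (range (LinearMap.toSpanSingleton (ZMod p) (B → ZMod p) x)) :=
          (finite_range _).isCompact
        exact this.isClosed)
      ⟨x, ⟨1, by simp⟩, hx⟩
    have hl' : l • x = y := hl
    exact ⟨l, hl' ▸ hy1, hl' ▸ hy2⟩
  · obtain ⟨ι, hι⟩ := exists_iota p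
    obtain ⟨h, hc, hi, ha⟩ := exists_h (R := ℤ_[p]) (P := Pr p) (X := X) (B := B) ι
      (by
        intro a
        obtain ⟨n, hn⟩ := Pr_torsion p a
        let g : ℤ_[p] →+ UnitAddCircle := ι.comp ((LinearMap.toSpanSingleton ℤ_[p] (Pr p) a).toAddMonoidHom)
        have hg : Continuous g := by
          apply continuous_of_continuousAt_zero g
          have : ∀ᶠ l in 𝓝 (0 : ℤ_[p]), g l = 0 := by
            have hball : Metric.ball (0 : ℤ_[p]) ((p:ℝ)^(-(n:ℤ))) ∈ 𝓝 (0 : ℤ_[p]) :=
              Metric.ball_mem_nhds _ (zpow_pos (by exact_mod_cast (Fact.out : p.Prime).pos) _)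
            filter_upwards [hball] with l hl
            rw [mem_ball_zero_iff] at hl
            have hl2 := (PadicInt.norm_le_pow_iff_mem_span_pow l n).1 hl.le
            rw [Ideal.mem_span_singleton] at hl2
            obtain ⟨m, rfl⟩ := hl2
            change ι (((p:ℤ_[p])^n * m) • a) = 0
            have : ((p:ℤ_[p])^n * m) • a = m • ((p^n : ℕ) • a) := by
              rw [mul_comm, mul_smul, ← Nat.cast_smul_eq_nsmul ℤ_[p]]
              push_cast; rfl
            rw [this, hn, smul_zero, map_zero]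
          have h0 : g 0 = 0 := map_zero g
          rw [ContinuousAt, h0]
          exact tendsto_const_nhds.congr' (this.mono fun l hl => hl.symm)
        exact hg)
      (fun l hl => by
        obtain ⟨a, ha⟩ := exists_smul_ne p l hl
        exact ⟨a, fun e => ha (hι (by rw [e, map_zero]))⟩) φ hφ
    obtain ⟨H, hess, hseq⟩ := transfer hmin hps j hj h hc hi (by
      rintro _ ⟨x, rfl⟩
      exact hd _ (ha x))
    have e : Nonempty (B ≃ ℕ × B) := by
      rw [← Cardinal.eq, Cardinal.mk_prod]
      simp [Cardinal.aleph0_mul_eq (Cardinal.aleph0_le_mk B)]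
    obtain ⟨e⟩ := e
    refine core p e H ?_ hseq
    intro x hx
    obtain ⟨y, ⟨l, hl⟩, hy1, hy2⟩ := hess ((LinearMap.toSpanSingleton ℤ_[p] (B → ℤ_[p]) x).toAddMonoidHom.range)
      (by
        have : IsCompact (range (LinearMap.toSpanSingleton ℤ_[p] (B → ℤ_[p]) x)) := by
          apply isCompact_range
          refine continuous_pi fun b => ?_
          change Continuous fun l : ℤ_[p] => l * x b
          exact continuous_id.mul continuous_const
        exact this.isClosed)
      ⟨x, ⟨1, by simp⟩, hx⟩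
    have hl' : l • x = y := hl
    exact ⟨l, hl' ▸ hy1, hl' ▸ hy2⟩

end H162R3.PR
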