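import Mathlib
import Pool.Agent.H162R3.PR4

set_option autoImplicit false

namespace H162R3.PR

open Filter Topology Set

/-- A set of indices of cardinality ℵ₁. -/
abbrev W1 : Type := (Cardinal.aleph 1).ord.ToType

theorem countable_Iio (α : W1) : (Iio α).Countable := by
  rw [← Cardinal.mk_le_aleph0_iff.trans Set.countable_coe_iff, ← Order.lt_succ_iff,
    Cardinal.succ_aleph0]
  exact Cardinal.mk_Iio_toType_ord_lt α

theorem W1_mk : Cardinal.mk W1 = Cardinal.aleph 1 := by
  rw [Cardinal.mk_toType, Cardinal.card_ord]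

theorem W1_not_countable : ¬ Countable W1 := by
  intro h
  have h1 : Cardinal.mk W1 ≤ Cardinal.aleph0 := Cardinal.mk_le_aleph0_iff.2 h
  rw [W1_mk] at h1
  exact absurd h1 (not_le.2 (by rw [← Cardinal.aleph_zero]; exact Cardinal.aleph_lt_aleph.2 zero_lt_one))

theorem SC_W1_of {B : Type} (hB : ¬ Countable B) (h : SC B) : SC W1 := by
  have h1 : Cardinal.mk W1 ≤ Cardinal.mk B := by
    rw [W1_mk, ← Cardinal.succ_aleph0, Order.succ_le_iff]
    by_contra hcon
    exact hB (Cardinal.mk_le_aleph0_iff.1 (not_lt.1 hcon))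
  obtain ⟨f⟩ := h1
  exact SC.of_injective f f.injective h

instance : NoMaxOrder W1 := by
  refine ⟨fun a => ?_⟩
  by_contra hcon
  push Not at hcon
  apply W1_not_countable
  have : (univ : Set W1) ⊆ insert a (Iio a) := by
    intro b _
    rcases eq_or_lt_of_le (hcon b) with h | h
    · left; exact h
    · right; exact h
  exact countable_univ_iff.1 (((countable_Iio a).insert a).mono this)

instance : Nonempty W1 := by
  by_contra h
  rw [not_nonempty_iff] at h
  exact W1_not_countable inferInstance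

theorem SC_zmod (h : SC W1) (y : ℕ → W1 → ZMod 2) :
    ∃ φ : ℕ → ℕ, StrictMono φ ∧ ∃ a, Tendsto (y ∘ φ) atTop (𝓝 a) := by
  obtain ⟨φ, hφ, a, ha⟩ := h (fun n w => decide (y n w = 1))
  refine ⟨φ, hφ, fun w => if a w then 1 else 0, ?_⟩
  rw [tendsto_pi_nhds] at ha ⊢
  intro w
  have h1 : ∀ᶠ n in atTop, decide (y (φ n) w = 1) = a w :=
    (ha w) (isOpen_discrete ({a w} : Set Bool) |>.mem_nhds rfl)
  refine tendsto_const_nhds.congr' ?_
  filter_upwards [h1] with n hn
  rw [← hn]
  have h2 : ∀ v : ZMod 2, (if decide (v = 1) = true then (1 : ZMod 2) else 0) = v := by decide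
  simpa using h2 (y (φ n) w)

theorem pseudoRadial_cube (h : SC W1) : PseudoRadial (W1 → ZMod 2) := by
  intro A hA
  by_cases hseq : ∃ (x : ℕ → W1 → ZMod 2) (p : W1 → ZMod 2), (∀ n, x n ∈ A) ∧ p ∉ A ∧
      Tendsto x atTop (𝓝 p)
  · exact ⟨ℕ, inferInstance, inferInstance, inferInstance, hseq⟩
  · push Not at hseq
    have hp : ∃ p, p ∈ closure A ∧ p ∉ A := by
      by_contra hcon
      push Not at hcon
      exact hA (isClosed_of_closure_subset hcon)
    obtain ⟨p, hpc, hpA⟩ := hp
    -- basic approximations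
    have hfin : ∀ F : Finset W1, ∃ x ∈ A, ∀ w ∈ F, x w = p w := by
      intro F
      have hop : IsOpen {x : W1 → ZMod 2 | ∀ w ∈ F, x w = p w} := by
        have : {x : W1 → ZMod 2 | ∀ w ∈ F, x w = p w} = ⋂ w ∈ F, (fun x : W1 → ZMod 2 => x w) ⁻¹' {p w} := by
          ext x; simp
        rw [this]
        refine isOpen_biInter_finset fun w _ => ?_
        exact (isOpen_discrete _).preimage (continuous_apply w)
      obtain ⟨x, hx1, hx2⟩ := mem_closure_iff.1 hpc _ hop (fun w _ => rfl)
      exact ⟨x, hx2, hx1⟩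
    have hcount : ∀ S : Set W1, S.Countable → ∃ x ∈ A, ∀ w ∈ S, x w = p w := by
      intro S hS
      rcases S.eq_empty_or_nonempty with rfl | hne
      · obtain ⟨x, hx, -⟩ := hfin ∅
        exact ⟨x, hx, by simp⟩
      obtain ⟨s, rfl⟩ := hS.exists_eq_range hne
      classical
      choose y hyA hy using fun n : ℕ => hfin ((Finset.range (n+1)).image s)
      obtain ⟨φ, hφ, a, ha⟩ := SC_zmod h y
      refine ⟨a, ?_, ?_⟩
      · by_contra haA
        exact hseq (y ∘ φ) a (fun n => hyA _) haA ha
      · rintro _ ⟨k, rfl⟩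
        have h1 : Tendsto (fun n => y (φ n) (s k)) atTop (𝓝 (a (s k))) :=
          (tendsto_pi_nhds.1 ha) (s k)
        refine tendsto_nhds_unique h1 (tendsto_const_nhds.congr' ?_)
        filter_upwards [eventually_ge_atTop k] with n hn
        refine (hy (φ n) (s k) ?_).symm
        refine Finset.mem_image_of_mem _ ?_
        have := hφ.id_le n
        simp only [Finset.mem_range]
        simp only [id] at this
        omega
    choose x hxA hx using fun α : W1 => hcount (Iio α) (countable_Iio α)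
    refine ⟨W1, inferInstance, inferInstance, inferInstance, x, p, hxA, hpA, ?_⟩
    rw [tendsto_pi_nhds]
    intro b
    refine tendsto_const_nhds.congr' ?_
    filter_upwards [eventually_gt_atTop b] with α hα
    exact (hx α b hα).symm

theorem cube_not_metrizable : ¬ TopologicalSpace.MetrizableSpace (W1 → ZMod 2) := by
  intro hm
  have hfc : FirstCountableTopology (W1 → ZMod 2) := inferInstance
  obtain ⟨U, hU⟩ := (𝓝 (0 : W1 → ZMod 2)).exists_antitone_basis
  have h1 : ∀ n, ∃ F : Finset W1, ∀ x : W1 → ZMod 2, (∀ w ∈ F, x w = 0) → x ∈ U n := by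
    intro n
    have hUn : U n ∈ 𝓝 (0 : W1 → ZMod 2) := hU.1.mem_of_mem trivial
    rw [mem_nhds_iff] at hUn
    obtain ⟨V, hVU, hV, h0⟩ := hUn
    obtain ⟨I, u, hu, hIu⟩ := isOpen_pi_iff.1 hV 0 h0
    refine ⟨I, fun x hx => hVU (hIu ?_)⟩
    intro w hw
    rw [hx w hw]
    exact (hu w hw).2
  choose F hF using h1
  have hc : (⋃ n, (F n : Set W1)).Countable := countable_iUnion fun n => (F n).countable_toSet
  obtain ⟨w, hw⟩ : ∃ w, w ∉ ⋃ n, (F n : Set W1) := by
    by_contra hcon
    push Not at hcon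
    exact W1_not_countable (countable_univ_iff.1 (hc.mono fun w _ => hcon w))
  classical
  have hop : {x : W1 → ZMod 2 | x w = 0} ∈ 𝓝 (0 : W1 → ZMod 2) := by
    have : IsOpen {x : W1 → ZMod 2 | x w = 0} := by
      have h1 : IsOpen ({0} : Set (ZMod 2)) := isOpen_discrete _
      have h2 : Continuous fun x : W1 → ZMod 2 => x w := continuous_apply w
      exact h1.preimage h2
    exact this.mem_nhds rfl
  obtain ⟨n, -, hn⟩ := hU.1.mem_iff.1 hop
  have h2 : (Pi.single w 1 : W1 → ZMod 2) ∈ U n := by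
    apply hF n
    intro v hv
    have : v ≠ w := by
      rintro rfl
      exact hw (mem_iUnion.2 ⟨n, hv⟩)
    simp [this]
  have h3 := hn h2
  simp at h3

theorem minimal_of_compact {G : Type} [AddCommGroup G] [τ : TopologicalSpace G] [CompactSpace G]
    : MinimalGrp G := by
  intro t ht _ ht2
  refine le_antisymm ?_ ht
  -- id : (G,τ) → (G,t) is closed
  have hc : @Continuous G G τ t id := continuous_id_iff_le.2 ht
  have hcl : ∀ s : Set G, @IsClosed G τ s → @IsClosed G t s := by
    intro s hs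
    have h1 : @IsCompact G τ s := @IsClosed.isCompact G τ s _ hs
    have h2 : @IsCompact G t (id '' s) := @IsCompact.image G G τ t s id h1 hc
    rw [image_id] at h2
    exact @IsCompact.isClosed G t _ s h2
  intro s hs
  have h3 := hcl sᶜ ((@isClosed_compl_iff G τ s).2 hs)
  exact (@isClosed_compl_iff G t s).1 h3

theorem two_torsion (t : UnitAddCircle) (ht : 2 • t = 0) :
    ∃ v : ZMod 2, ZMod.toAddCircle (N := 2) v = t := by
  obtain ⟨m, hm, hk⟩ := (AddCircle.nsmul_eq_zero_iff (p := (1:ℝ)) (n := 2) (by norm_num)).1 ht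
  refine ⟨(m : ZMod 2), ?_⟩
  rw [ZMod.toAddCircle_natCast, ← hk]
  simp

theorem dense_hom : ∃ (X : Type) (_ : AddCommGroup X)
    (j : (W1 → ZMod 2) →+ (X → UnitAddCircle)), IsEmbedding j ∧
      closure (range j) = {f | ∀ a b, f (a + b) = f a + f b} := by
  obtain ⟨h, hc, hi, ha, hform⟩ := exists_h' (R := ZMod 2) (P := ZMod 2) (X := W1 →₀ ZMod 2) (B := W1)
    (ZMod.toAddCircle (N := 2)) (fun a => continuous_of_discreteTopology)
    (fun l hl => ⟨1, by simpa using hl⟩) (AddMonoidHom.id _) Function.surjective_id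
  have hemb : IsClosedEmbedding h := hc.isClosedEmbedding hi
  refine ⟨W1 →₀ ZMod 2, inferInstance, h, hemb.isEmbedding, ?_⟩
  rw [hemb.isClosed_range.closure_eq]
  ext f
  constructor
  · rintro ⟨x, rfl⟩
    exact ha x
  · intro hf
    simp only [mem_ofPred_eq] at hf
    let f' : (W1 →₀ ZMod 2) →+ UnitAddCircle := AddMonoidHom.mk' f hf
    have h1 : ∀ w : W1, ∃ v : ZMod 2, ZMod.toAddCircle (N := 2) v = f (Finsupp.single w 1) := by
      intro w
      apply two_torsion
      change 2 • f' (Finsupp.single w 1) = 0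
      rw [← map_nsmul, Finsupp.smul_single]
      have : (2 • (1 : ZMod 2)) = 0 := by decide
      rw [this]; simp
    choose x hx using h1
    refine ⟨x, ?_⟩
    have h2 : (AddMonoidHom.mk' (h x) (ha x)) = f' := by
      apply Finsupp.addHom_ext
      intro w v
      have hv : v = v.val • (1 : ZMod 2) := by simp
      rw [hv, ← Finsupp.smul_single, map_nsmul, map_nsmul]
      congr 1
      change h x (Finsupp.single w 1) = f (Finsupp.single w 1)
      rw [hform, ← hx w]
      simp
    funext ξ
    exact DFunLike.congr_fun h2 ξ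

end H162R3.PR
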